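import Pool.Agent.Lib.MP_33952e_nt_P.Windows

/-!
# The position of the minimum

A random injection `ρ` is fixed.  A window is kept if the position of the minimum of `ρ` on it is
neither near its ends nor divisible by four.  One of four consecutive windows is dropped, and every
window is kept with probability nearly `3/4`.
-/

set_option autoImplicit false

namespace Pool.Agent.MP_33952e_nt.P

/-- the minimum of `ρ` on the window is at position `j` -/
def IsArg {q : ℕ} (ρ : ℕ → ℕ) (y : Fin q → ℕ) (j : Fin q) : Prop := ∀ i, ρ (y j) ≤ ρ (y i)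

/-- positions near the ends or divisible by four -/
def badpos (q j : ℕ) : Prop := j < 3 ∨ q ≤ j + 3 ∨ 4 ∣ j

/-- the windows which are kept -/
def Keep (q : ℕ) (ρ : ℕ → ℕ) : Set (Fin q → ℕ) := {y | ∃ j : Fin q, IsArg ρ y j ∧ ¬ badpos q j}

lemma Incr.inj {q : ℕ} {x : ℕ → ℕ} (hx : Incr q x) {i j : ℕ} (hi : i < q + 3) (hj : j < q + 3)
    (h : x i = x j) : i = j := by
  rcases Nat.lt_trichotomy i j with h1 | h1 | h1
  · have := hx i j h1 hj; omega
  · exact h1
  · have := hx j i h1 hi; omega

/-- one of four consecutive windows is dropped -/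
theorem hit {q : ℕ} (hq : 4 ≤ q) {ρ : ℕ → ℕ} (hρ : Function.Injective ρ) {x : ℕ → ℕ}
    (hx : Incr q x) (h : ∀ s ≤ 3, win q x s ∈ Keep q ρ) : False := by
  obtain ⟨P, hP, hmin⟩ := Finset.exists_min_image (Finset.range (q + 3)) (fun i => ρ (x i))
    ⟨0, by simp⟩
  simp only [Finset.mem_range] at hP hmin
  have key : ∃ s, s ≤ 3 ∧ s ≤ P ∧ P - s < q ∧ badpos q (P - s) := by
    unfold badpos
    rcases Nat.lt_or_ge P 3 with h1 | h1
    · exact ⟨0, by omega, by omega, by omega, Or.inl (by omega)⟩
    rcases Nat.lt_or_ge P q with h2 | h2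
    · refine ⟨P % 4, by omega, by omega, by omega, Or.inr (Or.inr ?_)⟩
      exact Nat.dvd_sub_mod P
    · exact ⟨3, by omega, by omega, by omega, Or.inr (Or.inl (by omega))⟩
  obtain ⟨s, hs, hsP, hPq, hbad⟩ := key
  obtain ⟨j, hj, hnb⟩ := h s hs
  have hj2 := j.2
  have e1 := hj ⟨P - s, hPq⟩
  have e2 := hmin (s + j) (by omega)
  simp only [win] at e1
  have e3 : s + (P - s) = P := by omega
  rw [e3] at e1
  have e4 := hx.inj (by omega) hP (hρ (le_antisymm e1 e2))
  apply hnb
  have : (j : ℕ) = P - s := by omega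
  rw [this]
  exact hbad

/-- the injection of `ℕ` given by a permutation of `Fin n` -/
def ext {n : ℕ} (σ : Equiv.Perm (Fin n)) (m : ℕ) : ℕ := if h : m < n then (σ ⟨m, h⟩ : ℕ) else m

lemma ext_inj {n : ℕ} (σ : Equiv.Perm (Fin n)) : Function.Injective (ext σ) := by
  intro a b h
  unfold ext at h
  split_ifs at h with h1 h2 h2
  · have := σ.injective (Fin.ext h)
    simpa using this
  · have := (σ ⟨a, h1⟩).2; omega
  · have := (σ ⟨b, h2⟩).2; omega
  · exact h

section

variable {n q : ℕ}

open Classical in
/-- permutations for which the minimum is at position `j` -/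
noncomputable def argSet (z : Fin q → Fin n) (j : Fin q) : Finset (Equiv.Perm (Fin n)) :=
  Finset.univ.filter fun σ => ∀ i, σ (z j) ≤ σ (z i)

lemma argSet_card_le (z : Fin q → Fin n) (hz : Function.Injective z) (j j' : Fin q) :
    (argSet z j).card ≤ (argSet z j').card := by
  apply Finset.card_le_card_of_injOn (fun σ => σ * Equiv.swap (z j) (z j'))
  · intro σ hσ
    simp only [argSet, Finset.coe_filter, Finset.mem_univ, true_and, Set.mem_setOf_eq] at hσ ⊢
    intro i
    simp only [Equiv.Perm.mul_apply, Equiv.swap_apply_right]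
    by_cases h1 : i = j
    · rw [h1, Equiv.swap_apply_left]; exact hσ _
    by_cases h2 : i = j'
    · rw [h2, Equiv.swap_apply_right]
    · rw [Equiv.swap_apply_of_ne_of_ne (fun e => h1 (hz e)) (fun e => h2 (hz e))]
      exact hσ _
  · intro σ _ τ _ h
    exact mul_right_cancel h

lemma argSet_card (z : Fin q → Fin n) (hz : Function.Injective z) (j : Fin q) :
    q * (argSet z j).card ≤ n.factorial := by
  classical
  have h1 : ∑ j' : Fin q, (argSet z j').card ≤ n.factorial := by
    rw [← Finset.card_biUnion]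
    · refine (Finset.card_le_univ _).trans ?_
      rw [Fintype.card_perm, Fintype.card_fin]
    · intro a _ b _ hab
      rw [Function.onFun, Finset.disjoint_left]
      intro σ ha hb
      simp only [argSet, Finset.mem_filter, Finset.mem_univ, true_and] at ha hb
      exact hab (hz (σ.injective (le_antisymm (ha b) (hb a))))
  have h2 : ∑ _j' : Fin q, (argSet z j).card ≤ ∑ j' : Fin q, (argSet z j').card :=
    Finset.sum_le_sum fun j' _ => argSet_card_le z hz j j'
  rw [Finset.sum_const, Finset.card_univ, Fintype.card_fin, smul_eq_mul] at h2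
  exact h2.trans h1

open Classical in
/-- the bad positions -/
noncomputable def Bad (q : ℕ) : Finset (Fin q) := Finset.univ.filter fun j => badpos q j

lemma Bad_card (Q : ℕ) : (Bad (4 * Q)).card ≤ Q + 6 := by
  classical
  have h : Bad (4 * Q) ⊆ ((Finset.univ.filter fun j : Fin (4 * Q) => (j : ℕ) < 3) ∪
      (Finset.univ.filter fun j : Fin (4 * Q) => 4 * Q ≤ (j : ℕ) + 3)) ∪
      (Finset.univ.filter fun j : Fin (4 * Q) => 4 ∣ (j : ℕ)) := by
    intro j hj
    simp only [Bad, badpos, Finset.mem_filter, Finset.mem_univ, true_and, Finset.mem_union] at hj ⊢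
    tauto
  have h1 : (Finset.univ.filter fun j : Fin (4 * Q) => (j : ℕ) < 3).card ≤ 3 := by
    have := Finset.card_le_card_of_injOn (s := Finset.univ.filter fun j : Fin (4 * Q) =>
      (j : ℕ) < 3) (t := Finset.range 3) (fun j => (j : ℕ)) (by intro j hj; simpa using hj)
      (by intro a _ b _ h; exact Fin.ext h)
    simpa using this
  have h2 : (Finset.univ.filter fun j : Fin (4 * Q) => 4 * Q ≤ (j : ℕ) + 3).card ≤ 3 := by
    have := Finset.card_le_card_of_injOn (s := Finset.univ.filter fun j : Fin (4 * Q) =>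
      4 * Q ≤ (j : ℕ) + 3) (t := Finset.range 3) (fun j => 4 * Q - 1 - (j : ℕ))
      (by
        intro j hj
        have := j.2
        simp only [Finset.coe_filter, Finset.mem_univ, true_and, Set.mem_setOf_eq] at hj
        simp only [Finset.coe_range, Set.mem_Iio]
        omega)
      (by
        intro a _ b _ h
        have := a.2
        have := b.2
        simp only at h
        exact Fin.ext (by omega))
    simpa using this
  have h3 : (Finset.univ.filter fun j : Fin (4 * Q) => 4 ∣ (j : ℕ)).card ≤ Q := by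
    have := Finset.card_le_card_of_injOn (s := Finset.univ.filter fun j : Fin (4 * Q) =>
      4 ∣ (j : ℕ)) (t := Finset.range Q) (fun j => (j : ℕ) / 4)
      (by
        intro j hj
        have := j.2
        simp only [Finset.coe_range, Set.mem_Iio]
        omega)
      (by
        intro a ha b hb h
        simp only [Finset.coe_filter, Finset.mem_univ, true_and, Set.mem_setOf_eq] at ha hb
        simp only at h
        exact Fin.ext (by omega))
    simpa using this
  calc (Bad (4 * Q)).card ≤ _ := Finset.card_le_card h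
    _ ≤ _ := Finset.card_union_le _ _
    _ ≤ 3 + 3 + Q := by
      have := Finset.card_union_le (Finset.univ.filter fun j : Fin (4 * Q) => (j : ℕ) < 3)
        (Finset.univ.filter fun j : Fin (4 * Q) => 4 * Q ≤ (j : ℕ) + 3)
      omega
    _ = Q + 6 := by omega

open Classical in
lemma drop_card (hq : 0 < q) (y : Fin q → ℕ) (hy : Function.Injective y) (hn : ∀ j, y j < n) :
    q * (Finset.univ.filter fun σ : Equiv.Perm (Fin n) => y ∉ Keep q (ext σ)).card ≤
      (Bad q).card * n.factorial := by
  set z : Fin q → Fin n := fun j => ⟨y j, hn j⟩ with hzdef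
  have hz : Function.Injective z := fun a b h => hy (by simpa [hzdef] using h)
  have hsub : (Finset.univ.filter fun σ : Equiv.Perm (Fin n) => y ∉ Keep q (ext σ)) ⊆
      (Bad q).biUnion (argSet z) := by
    intro σ hσ
    simp only [Finset.mem_filter, Finset.mem_univ, true_and] at hσ
    have : Nonempty (Fin q) := ⟨⟨0, hq⟩⟩
    obtain ⟨j, -, hj⟩ := Finset.exists_min_image (Finset.univ : Finset (Fin q))
      (fun i => ext σ (y i)) Finset.univ_nonempty
    have hbad : badpos q j := by
      by_contra hnb
      exact hσ ⟨j, fun i => hj i (Finset.mem_univ _), hnb⟩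
    rw [Finset.mem_biUnion]
    refine ⟨j, by simp [Bad, hbad], ?_⟩
    simp only [argSet, Finset.mem_filter, Finset.mem_univ, true_and]
    intro i
    have := hj i (Finset.mem_univ _)
    simp only [ext, dif_pos (hn _)] at this
    exact this
  calc q * (Finset.univ.filter fun σ : Equiv.Perm (Fin n) => y ∉ Keep q (ext σ)).card
      ≤ q * ∑ j ∈ Bad q, (argSet z j).card :=
        Nat.mul_le_mul_left _ ((Finset.card_le_card hsub).trans Finset.card_biUnion_le)
    _ = ∑ j ∈ Bad q, q * (argSet z j).card := by rw [Finset.mul_sum]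
    _ ≤ ∑ _j ∈ Bad q, n.factorial := Finset.sum_le_sum fun j _ => argSet_card z hz j
    _ = (Bad q).card * n.factorial := by rw [Finset.sum_const, smul_eq_mul]

open Classical in
/-- **Averaging**: some injection keeps nearly three quarters of the windows. -/
theorem ratio {α : Type} {Q : ℕ} (hQ : 0 < Q) (A : Finset α) (y : α → Fin (4 * Q) → ℕ)
    (hy : ∀ a ∈ A, Function.Injective (y a)) : ∃ ρ : ℕ → ℕ, Function.Injective ρ ∧
      4 * Q * (A.filter fun a => y a ∉ Keep (4 * Q) ρ).card ≤ (Q + 6) * A.card := by
  set n : ℕ := (∑ a ∈ A, ∑ j, y a j) + 1 with hn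
  have hyn : ∀ a ∈ A, ∀ j, y a j < n := by
    intro a ha j
    have h1 : y a j ≤ ∑ j, y a j :=
      Finset.single_le_sum (f := fun j => y a j) (fun _ _ => Nat.zero_le _) (Finset.mem_univ j)
    have h2 : ∑ j, y a j ≤ ∑ a ∈ A, ∑ j, y a j :=
      Finset.single_le_sum (f := fun a => ∑ j, y a j) (fun _ _ => Nat.zero_le _) ha
    omega
  have hsum : ∑ σ : Equiv.Perm (Fin n),
      4 * Q * (A.filter fun a => y a ∉ Keep (4 * Q) (ext σ)).card ≤
      ∑ _σ : Equiv.Perm (Fin n), (Q + 6) * A.card := by
    calc ∑ σ : Equiv.Perm (Fin n), 4 * Q * (A.filter fun a => y a ∉ Keep (4 * Q) (ext σ)).card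
        = 4 * Q * ∑ σ : Equiv.Perm (Fin n), ∑ a ∈ A,
            if y a ∉ Keep (4 * Q) (ext σ) then 1 else 0 := by
          rw [Finset.mul_sum]
          refine Finset.sum_congr rfl fun σ _ => ?_
          rw [Finset.card_filter]
      _ = ∑ a ∈ A, 4 * Q * (Finset.univ.filter fun σ : Equiv.Perm (Fin n) =>
            y a ∉ Keep (4 * Q) (ext σ)).card := by
          rw [Finset.sum_comm, Finset.mul_sum]
          refine Finset.sum_congr rfl fun a _ => ?_
          rw [Finset.card_filter]
      _ ≤ ∑ _a ∈ A, (Q + 6) * n.factorial := by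
          refine Finset.sum_le_sum fun a ha => ?_
          refine (drop_card (by omega) (y a) (hy a ha) (hyn a ha)).trans ?_
          exact Nat.mul_le_mul_right _ (Bad_card Q)
      _ = ∑ _σ : Equiv.Perm (Fin n), (Q + 6) * A.card := by
          rw [Finset.sum_const, Finset.sum_const, Finset.card_univ, Fintype.card_perm,
            Fintype.card_fin, smul_eq_mul, smul_eq_mul]
          ring
  obtain ⟨σ, -, hσ⟩ := Finset.exists_le_of_sum_le Finset.univ_nonempty hsum
  exact ⟨ext σ, ext_inj σ, hσ⟩

end

end Pool.Agent.MP_33952e_nt.P
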