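import Pool.Agent.Lib.MP_33952e_nt_P.Ramsey

/-!
# Windows

For every colouring of the increasing `q`-tuples there are `q + 3` points whose four windows of
`q` consecutive points have the same colour.
-/

set_option autoImplicit false

namespace Pool.Agent.MP_33952e_nt.P

open Filter

/-- the window of length `q` which starts at `s` -/
def win (q : ℕ) (x : ℕ → ℕ) (s : ℕ) : Fin q → ℕ := fun j => x (s + j)

/-- the first `q + 3` values increase -/
def Incr (q : ℕ) (x : ℕ → ℕ) : Prop := ∀ i j, i < j → j < q + 3 → x i < x j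

section

variable {κ : Type} [Finite κ] (c : List ℕ → κ)

/-- iterated limits of a colouring of lists -/
noncomputable def Lim : ℕ → List ℕ → κ
  | 0, y => c y
  | d + 1, y => ulim (hyperfilter ℕ) fun x => Lim d (x :: y)

/-- all short initial segments of `y` have the limit colour -/
def QQ (q : ℕ) (y : List ℕ) : Prop :=
  ∀ j ≤ q, j ≤ y.length → Lim c (q - j) (y.take j) = Lim c q []

lemma QQ_nil (q : ℕ) : QQ c q [] := by
  intro j hj hl
  have : j = 0 := by simpa using hl
  subst this
  simp

lemma QQ_extend {q : ℕ} {y : List ℕ} (h : QQ c q y) (n : ℕ) : ∃ x, n < x ∧ QQ c q (x :: y) := by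
  have key : ∀ᶠ x in (hyperfilter ℕ : Filter ℕ), ∀ j ∈ Finset.range q, j ≤ y.length →
      Lim c (q - (j + 1)) (x :: y.take j) = Lim c q [] := by
    rw [Filter.eventually_all_finset]
    intro j hj
    rw [Finset.mem_range] at hj
    by_cases hl : j ≤ y.length
    · have h1 := h j hj.le hl
      have e : q - j = (q - (j + 1)) + 1 := by omega
      rw [e] at h1
      have h2 := ulim_spec (hyperfilter ℕ) fun x => Lim c (q - (j + 1)) (x :: y.take j)
      filter_upwards [h2] with x hx _
      rw [hx]
      exact h1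
    · exact Filter.Eventually.of_forall fun x hx => (hl hx).elim
  obtain ⟨x, hx, hx2⟩ := (key.and (hyper_gt n)).exists
  refine ⟨x, hx2, ?_⟩
  intro j hj hl
  rcases j with _ | j
  · simp
  · rw [List.take_succ_cons]
    exact hx j (Finset.mem_range.2 (by omega)) (by simpa using hl)

lemma exists_list (q m : ℕ) : ∃ y : List ℕ, y.length = m ∧ y.Pairwise (fun a b => b < a) ∧
    ∀ t, QQ c q (y.drop t) := by
  induction m with
  | zero => exact ⟨[], rfl, List.Pairwise.nil, fun t => by simpa using QQ_nil c q⟩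
  | succ m ih =>
    obtain ⟨y, h1, h2, h3⟩ := ih
    obtain ⟨x, hx1, hx2⟩ := QQ_extend c (h3 0) (y.sum)
    rw [List.drop_zero] at hx2
    refine ⟨x :: y, by simp [h1], ?_, ?_⟩
    · rw [List.pairwise_cons]
      refine ⟨fun b hb => ?_, h2⟩
      have := List.single_le_sum (fun _ _ => Nat.zero_le _) b hb
      omega
    · intro t
      rcases t with _ | t
      · exact hx2
      · exact h3 t

end

theorem windows_inf {κ : Type} [Finite κ] (q : ℕ) (c : (Fin q → ℕ) → κ) :
    ∃ (x : ℕ → ℕ) (k : κ), Incr q x ∧ ∀ s ≤ 3, c (win q x s) = k := by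
  let c' : List ℕ → κ := fun w => c fun j => w.getD (q - 1 - j) 0
  obtain ⟨y, h1, h2, h3⟩ := exists_list c' q (q + 3)
  refine ⟨fun i => y.getD (q + 2 - i) 0, Lim c' q [], ?_, ?_⟩
  · intro i j hij hj
    rw [List.pairwise_iff_getElem] at h2
    have := h2 (q + 2 - j) (q + 2 - i) (by omega) (by omega) (by omega)
    simp only
    rw [List.getD_eq_getElem _ _ (by omega), List.getD_eq_getElem _ _ (by omega)]
    exact this
  · intro s hs
    have h4 := h3 (3 - s) q le_rfl (by rw [List.length_drop]; omega)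
    rw [Nat.sub_self] at h4
    rw [← h4]
    change c _ = c _
    congr 1
    funext j
    have hj := j.2
    simp only [win]
    rw [List.getD_eq_getElem?_getD, List.getD_eq_getElem?_getD, List.getElem?_take,
      List.getElem?_drop]
    rw [if_pos (by omega)]
    congr 3
    omega

theorem windows (κ : Type) [Finite κ] (q : ℕ) : ∃ n : ℕ, ∀ c : (Fin q → ℕ) → κ,
    ∃ x : ℕ → ℕ, Incr q x ∧ (∀ i < q + 3, x i < n) ∧ c (win q x 0) = c (win q x 1) ∧
      c (win q x 1) = c (win q x 2) ∧ c (win q x 2) = c (win q x 3) := by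
  by_contra hcon
  push Not at hcon
  choose c hc using hcon
  obtain ⟨x, k, hx, hk⟩ := windows_inf q fun y => ulim (hyperfilter ℕ) fun n => c n y
  have s : ∀ t, ∀ᶠ n in (hyperfilter ℕ : Filter ℕ), c n (win q x t) =
      ulim (hyperfilter ℕ) fun n => c n (win q x t) := fun t => ulim_spec _ _
  obtain ⟨n, h0, h1, h2, h3, h4⟩ :=
    ((s 0).and ((s 1).and ((s 2).and ((s 3).and (hyper_gt (x (q + 2))))))).exists
  refine hc n x hx (fun i hi => ?_) ?_ ?_ ?_
  · rcases Nat.lt_or_ge i (q + 2) with h | h
    · exact (hx i (q + 2) h (by omega)).trans h4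
    · have : i = q + 2 := by omega
      rw [this]; exact h4
  · rw [h0, h1, hk 0 (by omega), hk 1 (by omega)]
  · rw [h1, h2, hk 1 (by omega), hk 2 (by omega)]
  · rw [h2, h3, hk 2 (by omega), hk 3 (by omega)]

end Pool.Agent.MP_33952e_nt.P
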