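import Pool.Agent.Lib.MP_33952e_nt_P.Step
import Pool.Agent.Lib.MP_33952e_nt_P.Windows

/-!
# Systems in which every colouring has a monochromatic tetrahedron

The labels are windows; the four faces of a tetrahedron carry four consecutive windows.
-/

set_option autoImplicit false

namespace Pool.Agent.MP_33952e_nt.P

/-- four consecutive windows -/
def E4 (q : ℕ) (l1 l2 l3 l4 : Fin q → ℕ) : Prop :=
  ∃ x, Incr q x ∧ l1 = win q x 0 ∧ l2 = win q x 1 ∧ l3 = win q x 2 ∧ l4 = win q x 3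

lemma win_inj {q : ℕ} {x : ℕ → ℕ} (hx : Incr q x) {s : ℕ} (hs : s ≤ 3) :
    Function.Injective (win q x s) := by
  intro i j h
  have hi := i.2
  have hj := j.2
  simp only [win] at h
  rcases Nat.lt_trichotomy (i : ℕ) j with h1 | h1 | h1
  · have := hx (s + i) (s + j) (by omega) (by omega); omega
  · exact Fin.ext h1
  · have := hx (s + j) (s + i) (by omega) (by omega); omega

/-- extension of a finite sequence -/
def ex {q n : ℕ} (x : Fin (q + 3) → Fin n) (i : ℕ) : ℕ := if h : i < q + 3 then (x ⟨i, h⟩ : ℕ) else 0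

/-- disjoint tetrahedra over all four-subsets of the parts, with all labels -/
def base (q r n : ℕ) : Sys (Fin q → ℕ) where
  V := (Fin 4 → Fin r) × (Fin (q + 3) → Fin n) × Fin 4
  fin := inferInstance
  part := fun u => u.1 u.2.2
  T := fun l u v w => u.1 = v.1 ∧ v.1 = w.1 ∧ u.2.1 = v.2.1 ∧ v.2.1 = w.2.1 ∧ StrictMono u.1 ∧
    Incr q (ex u.2.1) ∧ u.2.2 < v.2.2 ∧ v.2.2 < w.2.2 ∧
    l = win q (ex u.2.1) (6 - ((u.2.2 : ℕ) + v.2.2 + w.2.2))

lemma valid_base (q r n : ℕ) : Valid (E4 q) (base q r n) where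
  trans := by
    rintro l ⟨M, x, s⟩ ⟨M', x', s'⟩ ⟨M'', x'', s''⟩ ⟨h1, h2, h3, h4, h5, h6, h7, h8, h9⟩
    simp only at h1 h2 h3 h4 h5 h6 h7 h8 h9
    subst h1 h2
    exact ⟨h5 h7, h5 h8⟩
  uniq := by
    rintro l m u v w ⟨-, -, -, -, -, -, -, -, h⟩ ⟨-, -, -, -, -, -, -, -, h'⟩
    rw [h, h']
  good := by
    rintro l1 l2 l3 l4 ⟨M, x, s⟩ ⟨M', x', s'⟩ ⟨M'', x'', s''⟩ ⟨N, y, t⟩
      ⟨a1, a2, a3, a4, a5, a6, a7, a8, a9⟩ ⟨b1, b2, b3, b4, b5, b6, b7, b8, b9⟩
      ⟨c1, c2, c3, c4, c5, c6, c7, c8, c9⟩ ⟨d1, d2, d3, d4, d5, d6, d7, d8, d9⟩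
    simp only at a3 a6 a7 a8 a9 b7 b8 b9
    simp only at c7 c8 c9 d7 d8 d9
    have e0 : (s : ℕ) = 0 := by omega
    have e1 : (s' : ℕ) = 1 := by omega
    have e2 : (s'' : ℕ) = 2 := by omega
    have e3 : (t : ℕ) = 3 := by omega
    rw [e0, e1, e2] at a9
    rw [e0, e1, e3] at b9
    rw [e0, e2, e3] at c9
    rw [e1, e2, e3, ← a3] at d9
    exact ⟨ex x, a6, d9, c9, b9, a9⟩

lemma ex_win {q n : ℕ} {x : ℕ → ℕ} (X : Fin (q + 3) → Fin n) (hX : ∀ i, (X i : ℕ) = x i) {s : ℕ}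
    (hs : s ≤ 3) : win q (ex X) s = win q x s := by
  funext j
  have := j.2
  simp only [win, ex]
  rw [dif_pos (by omega), hX]

open Classical in
/-- **Ramsey property with labels** -/
theorem exists_sys (q : ℕ) (κ : Type) [Finite κ] [Nonempty κ] : ∃ S : Sys (Fin q → ℕ),
    Valid (E4 q) S ∧ ∀ χ : S.V → S.V → S.V → κ, ∃ (u v w z : S.V) (l1 l2 l3 l4 : Fin q → ℕ),
      S.T l4 u v w ∧ S.T l3 u v z ∧ S.T l2 u w z ∧ S.T l1 v w z ∧
      Function.Injective l1 ∧ Function.Injective l2 ∧ Function.Injective l3 ∧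
      Function.Injective l4 ∧ χ u v w = χ u v z ∧ χ u v z = χ u w z ∧ χ u w z = χ v w z := by
  obtain ⟨n, hn⟩ := windows κ q
  obtain ⟨r, hr⟩ := ramsey3 ((Fin q → Fin n) → κ)
  let lab : (Fin q → Fin n) → Fin q → ℕ := fun f j => f j
  let tasks : List ((ℕ × ℕ × ℕ) × (Fin q → ℕ)) :=
    ((((Finset.range r) ×ˢ (Finset.range r) ×ˢ (Finset.range r)).filter
      fun t => t.1 < t.2.1 ∧ t.2.1 < t.2.2) ×ˢ (Finset.univ.image lab)).toList
  have hmem : ∀ i j k f, i < j → j < k → k < r → ((i, j, k), lab f) ∈ tasks := by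
    intro i j k f h1 h2 h3
    simp only [tasks, Finset.mem_toList, Finset.mem_product, Finset.mem_filter, Finset.mem_range,
      Finset.mem_image, Finset.mem_univ, true_and]
    exact ⟨⟨⟨by omega, by omega, h3⟩, h1, h2⟩, f, rfl⟩
  obtain ⟨S, hS, hS2⟩ := steps κ tasks (valid_base q r n) (by
    intro t ht
    simp only [tasks, Finset.mem_toList, Finset.mem_product, Finset.mem_filter] at ht
    exact ht.1.2)
  refine ⟨S, hS, fun χ => ?_⟩
  obtain ⟨φ, hφ, hk⟩ := hS2 χ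
  let K : ℕ → ℕ → ℕ → (Fin q → Fin n) → κ := fun i j k f =>
    if h : ((i, j, k), lab f) ∈ tasks then (hk _ h).choose else Classical.arbitrary κ
  have hK : ∀ i j k f, i < j → j < k → k < r → ∀ u v w, (base q r n).part u = i →
      (base q r n).part v = j → (base q r n).part w = k → (base q r n).T (lab f) u v w →
      χ (φ u) (φ v) (φ w) = K i j k f := by
    intro i j k f h1 h2 h3 u v w e1 e2 e3 e4
    simp only [K]
    rw [dif_pos (hmem i j k f h1 h2 h3)]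
    exact (hk _ (hmem i j k f h1 h2 h3)).choose_spec u v w e1 e2 e3 e4
  obtain ⟨i, j, k, l, hij, hjk, hkl, hlr, g1, g2, g3⟩ := hr K
  obtain ⟨x, hx, hxn, w1, w2, w3⟩ := hn fun y =>
    if h : ∀ t, y t < n then K i j k (fun t => ⟨y t, h t⟩) else Classical.arbitrary κ
  set X : Fin (q + 3) → Fin n := fun t => ⟨x t, hxn t t.2⟩ with hX
  have hXi : Incr q (ex X) := by
    intro a b hab hb
    simp only [ex]
    rw [dif_pos (by omega), dif_pos hb]
    exact hx a b hab hb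
  set M : Fin 4 → Fin r := ![⟨i, by omega⟩, ⟨j, by omega⟩, ⟨k, by omega⟩, ⟨l, hlr⟩] with hM
  have hMm : StrictMono M := by
    intro a b hab
    fin_cases a <;> fin_cases b <;> simp_all [Fin.lt_def]
    all_goals omega
  have hwn : ∀ s ≤ 3, ∀ t, win q x s t < n := by
    intro s hs t
    have := t.2
    exact hxn _ (by omega)
  let W : ∀ s, s ≤ 3 → Fin q → Fin n := fun s hs t => ⟨win q x s t, hwn s hs t⟩
  have hlab : ∀ s (hs : s ≤ 3), lab (W s hs) = win q (ex X) s := by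
    intro s hs
    rw [ex_win X (fun _ => rfl) hs]
  have hw : ∀ s (hs : s ≤ 3), (if h : ∀ t, win q x s t < n then K i j k
      (fun t => ⟨win q x s t, h t⟩) else Classical.arbitrary κ) = K i j k (W s hs) := by
    intro s hs
    rw [dif_pos (hwn s hs)]
  rw [hw 0 (by omega), hw 1 (by omega)] at w1
  rw [hw 1 (by omega), hw 2 (by omega)] at w2
  rw [hw 2 (by omega), hw 3 (by omega)] at w3
  let vx : Fin 4 → (base q r n).V := fun s => (M, X, s)
  have T012 : (base q r n).T (win q (ex X) 3) (vx 0) (vx 1) (vx 2) :=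
    ⟨rfl, rfl, rfl, rfl, hMm, hXi, by simp [vx], by simp [vx, Fin.lt_def], rfl⟩
  have T013 : (base q r n).T (win q (ex X) 2) (vx 0) (vx 1) (vx 3) :=
    ⟨rfl, rfl, rfl, rfl, hMm, hXi, by simp [vx], by simp [vx, Fin.lt_def], rfl⟩
  have T023 : (base q r n).T (win q (ex X) 1) (vx 0) (vx 2) (vx 3) :=
    ⟨rfl, rfl, rfl, rfl, hMm, hXi, by simp [vx, Fin.lt_def], by simp [vx, Fin.lt_def], rfl⟩
  have T123 : (base q r n).T (win q (ex X) 0) (vx 1) (vx 2) (vx 3) :=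
    ⟨rfl, rfl, rfl, rfl, hMm, hXi, by simp [vx, Fin.lt_def], by simp [vx, Fin.lt_def], rfl⟩
  have c012 := hK i j k (W 3 le_rfl) hij hjk (by omega) (vx 0) (vx 1) (vx 2) rfl rfl rfl
    (by rw [hlab 3 le_rfl]; exact T012)
  have c013 := hK i j l (W 2 (by omega)) hij (by omega) hlr (vx 0) (vx 1) (vx 3) rfl rfl rfl
    (by rw [hlab 2 (by omega)]; exact T013)
  have c023 := hK i k l (W 1 (by omega)) (by omega) hkl hlr (vx 0) (vx 2) (vx 3) rfl rfl rfl
    (by rw [hlab 1 (by omega)]; exact T023)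
  have c123 := hK j k l (W 0 (by omega)) hjk hkl hlr (vx 1) (vx 2) (vx 3) rfl rfl rfl
    (by rw [hlab 0 (by omega)]; exact T123)
  refine ⟨φ (vx 0), φ (vx 1), φ (vx 2), φ (vx 3), win q (ex X) 0, win q (ex X) 1,
    win q (ex X) 2, win q (ex X) 3, hφ.2 _ _ _ _ T012, hφ.2 _ _ _ _ T013, hφ.2 _ _ _ _ T023,
    hφ.2 _ _ _ _ T123, win_inj hXi (by omega), win_inj hXi (by omega), win_inj hXi (by omega),
    win_inj hXi (by omega), ?_, ?_, ?_⟩
  · rw [c012, c013, ← g1, w3]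
  · rw [c013, c023, ← g2, ← g1, w2]
  · rw [c023, c123, ← g3, ← g2, ← g1, w1]

end Pool.Agent.MP_33952e_nt.P
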