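import Mathlib

/-!
# B₂ sets and property P(δ)

The definitions used by the statement of `CriticalDensity`.
-/

set_option autoImplicit false

namespace Pool.Agent.MP_33952e_nt.P

/-- `S` is a `B₂` set (Sidon set): all sums `a + b` of two of its members are distinct. -/
def IsSidon (S : Set ℕ) : Prop :=
  ∀ a ∈ S, ∀ b ∈ S, ∀ c ∈ S, ∀ d ∈ S, a + b = c + d → (a = c ∧ b = d) ∨ (a = d ∧ b = c)

/-- Property `P(δ)`: every finite subset `A` of `B` contains a `B₂` set with at least `δ |A|`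
elements. -/
def PropertyP (δ : ℝ) (B : Set ℕ) : Prop :=
  ∀ A : Finset ℕ, (A : Set ℕ) ⊆ B → ∃ S ⊆ A, δ * A.card ≤ S.card ∧ IsSidon (S : Set ℕ)

end Pool.Agent.MP_33952e_nt.P
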