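import Pool.Agent.Lib.MP_33952e_nt_P.Powers

/-!
# Boundaries of triangles

A triple `u < v < w` has the boundary `[v w] - [u w] + [u v]`.  The only coincidences between sums
of two boundaries are given by the four faces of a tetrahedron.
-/

set_option autoImplicit false

namespace Pool.Agent.MP_33952e_nt.P

lemma ms_two {α : Type} {a b c d : α} (h : ({a, b} : Multiset α) = {c, d}) :
    (a = c ∧ b = d) ∨ (a = d ∧ b = c) := by
  have ha : a ∈ ({c, d} : Multiset α) := by rw [← h]; simp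
  simp only [Multiset.insert_eq_cons, Multiset.mem_cons, Multiset.mem_singleton] at ha
  rcases ha with rfl | rfl
  · left
    simp only [Multiset.insert_eq_cons, Multiset.cons_inj_right, Multiset.singleton_inj] at h
    exact ⟨rfl, h⟩
  · right
    rw [Multiset.pair_comm c a] at h
    simp only [Multiset.insert_eq_cons, Multiset.cons_inj_right, Multiset.singleton_inj] at h
    exact ⟨rfl, h⟩

lemma ms_three {α : Type} {a b c d e f : α} (h : ({a, b, c} : Multiset α) = {d, e, f}) :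
    (a = d ∧ ({b, c} : Multiset α) = {e, f}) ∨ (a = e ∧ ({b, c} : Multiset α) = {d, f}) ∨
      (a = f ∧ ({b, c} : Multiset α) = {d, e}) := by
  have ha : a ∈ ({d, e, f} : Multiset α) := by rw [← h]; simp
  simp only [Multiset.insert_eq_cons, Multiset.mem_cons, Multiset.mem_singleton] at ha
  rcases ha with rfl | rfl | rfl
  · left
    refine ⟨rfl, ?_⟩
    simp only [Multiset.insert_eq_cons, Multiset.cons_inj_right] at h ⊢
    exact h
  · right; left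
    have : ({d, a, f} : Multiset α) = {a, d, f} := by
      simp only [Multiset.insert_eq_cons]; exact Multiset.cons_swap _ _ _
    rw [this] at h
    refine ⟨rfl, ?_⟩
    simp only [Multiset.insert_eq_cons, Multiset.cons_inj_right] at h ⊢
    exact h
  · right; right
    have : ({d, e, a} : Multiset α) = {a, d, e} := by
      simp only [Multiset.insert_eq_cons]
      rw [Multiset.cons_swap a d, ← Multiset.insert_eq_cons (a := a), Multiset.pair_comm]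
      rfl
    rw [this] at h
    refine ⟨rfl, ?_⟩
    simp only [Multiset.insert_eq_cons, Multiset.cons_inj_right] at h ⊢
    exact h

/-- a boundary determines the triple -/
lemma bd_inj {a b c u v w : ℕ} (h1 : a < b) (h2 : b < c) (h3 : u < v) (h4 : v < w)
    (h : ({(b, c), (a, b), (u, w)} : Multiset (ℕ × ℕ)) = {(v, w), (u, v), (a, c)}) :
    u = a ∧ v = b ∧ w = c := by
  rcases ms_three h with ⟨e, h'⟩ | ⟨e, h'⟩ | ⟨e, h'⟩
  · simp only [Prod.mk.injEq] at e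
    obtain ⟨rfl, rfl⟩ := e
    rcases ms_two h' with ⟨e1, e2⟩ | ⟨e1, e2⟩
    · simp only [Prod.mk.injEq] at e1 e2
      omega
    · simp only [Prod.mk.injEq] at e1 e2
      omega
  · simp only [Prod.mk.injEq] at e
    obtain ⟨rfl, rfl⟩ := e
    rcases ms_two h' with ⟨e1, e2⟩ | ⟨e1, e2⟩
    · simp only [Prod.mk.injEq] at e1 e2
      omega
    · simp only [Prod.mk.injEq] at e1 e2
      omega
  · simp only [Prod.mk.injEq] at e
    omega

/-- `t` is the triple `(u, v, w)` -/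
def Is (t : ℕ × ℕ × ℕ) (u v w : ℕ) : Prop := t = (u, v, w)

/-- increasing triple -/
def Inc (t : ℕ × ℕ × ℕ) : Prop := t.1 < t.2.1 ∧ t.2.1 < t.2.2

/-- the pairs with a plus sign -/
def pos (t : ℕ × ℕ × ℕ) : Multiset (ℕ × ℕ) := {(t.2.1, t.2.2), (t.1, t.2.1)}

/-- the boundaries of `s` and `t` have the same sum as those of `s'` and `t'` -/
def Rel (s t s' t' : ℕ × ℕ × ℕ) : Prop :=
  pos s + pos t + {(s'.1, s'.2.2), (t'.1, t'.2.2)} =
    pos s' + pos t' + {(s.1, s.2.2), (t.1, t.2.2)}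

lemma Rel.symm {s t s' t' : ℕ × ℕ × ℕ} (h : Rel s t s' t') : Rel s' t' s t := Eq.symm h

lemma Rel.swap_left {s t s' t' : ℕ × ℕ × ℕ} (h : Rel s t s' t') : Rel t s s' t' := by
  unfold Rel at *
  rw [add_comm (pos t), h, Multiset.pair_comm (s.1, s.2.2)]

lemma Rel.swap_right {s t s' t' : ℕ × ℕ × ℕ} (h : Rel s t s' t') : Rel s t t' s' :=
  h.symm.swap_left.symm

/-- The triples `s, t` and `s', t'` are the faces of a tetrahedron `u, v, w, z`:
`s, t` are `uvz, vwz` and `s', t'` are `uwz, uvw`. -/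
def Tet (s t s' t' : ℕ × ℕ × ℕ) : Prop :=
  ∃ u v w z : ℕ, u < v ∧ v < w ∧ w < z ∧
    ((s = (u, v, z) ∧ t = (v, w, z)) ∨ (t = (u, v, z) ∧ s = (v, w, z))) ∧
    ((s' = (u, w, z) ∧ t' = (u, v, w)) ∨ (t' = (u, w, z) ∧ s' = (u, v, w)))

variable {u1 v1 z u2 v2 w2 u3 v3 w3 u4 v4 w4 : ℕ}

lemma case_none (a1 : u1 < v1) (a2 : v1 < z) (b2 : v2 < w2) (c2 : v3 < w3) (d2 : v4 < w4)
    (m2 : w2 < z) (m3 : w3 < z) (m4 : w4 < z)
    (h : Rel (u1, v1, z) (u2, v2, w2) (u3, v3, w3) (u4, v4, w4)) : False := by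
  unfold Rel pos at h
  have n1 : v1 ≠ z := by omega
  have n2 : v2 ≠ z := by omega
  have n3 : v3 ≠ z := by omega
  have n4 : v4 ≠ z := by omega
  have p2 : w2 ≠ z := by omega
  have p3 : w3 ≠ z := by omega
  have p4 : w4 ≠ z := by omega
  have hz := congrArg (fun m => (m.filter (fun p : ℕ × ℕ => p.2 = z)).map Prod.fst) h
  simp [Multiset.filter_add, Multiset.filter_cons, Multiset.filter_singleton,
    n1, n2, n3, n4, p2, p3, p4] at hz
  omega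

lemma case_2 (a1 : u1 < v1) (a2 : v1 < z) (b1 : u2 < v2) (b2 : v2 < z) (c2 : v3 < w3)
    (d2 : v4 < w4) (m3 : w3 < z) (m4 : w4 < z)
    (h : Rel (u1, v1, z) (u2, v2, z) (u3, v3, w3) (u4, v4, w4)) : False := by
  unfold Rel pos at h
  have n1 : v1 ≠ z := by omega
  have n2 : v2 ≠ z := by omega
  have n3 : v3 ≠ z := by omega
  have n4 : v4 ≠ z := by omega
  have p3 : w3 ≠ z := by omega
  have p4 : w4 ≠ z := by omega
  have hz := congrArg (fun m => ((m.filter (fun p : ℕ × ℕ => p.2 = z)).map Prod.fst).sum) h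
  simp [Multiset.filter_add, Multiset.filter_cons, Multiset.filter_singleton,
    n1, n2, n3, n4, p3, p4] at hz
  omega

lemma case_3 (a1 : u1 < v1) (a2 : v1 < z) (b1 : u2 < v2) (b2 : v2 < w2) (c1 : u3 < v3)
    (c2 : v3 < z) (d1 : u4 < v4) (d2 : v4 < w4) (m2 : w2 < z) (m4 : w4 < z)
    (h : Rel (u1, v1, z) (u2, v2, w2) (u3, v3, z) (u4, v4, w4)) :
    (u1 = u3 ∧ v1 = v3) ∧ (u4 = u2 ∧ v4 = v2 ∧ w4 = w2) := by
  unfold Rel pos at h
  have n1 : v1 ≠ z := by omega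
  have n2 : v2 ≠ z := by omega
  have n3 : v3 ≠ z := by omega
  have n4 : v4 ≠ z := by omega
  have p2 : w2 ≠ z := by omega
  have p4 : w4 ≠ z := by omega
  have hz := congrArg (fun m => (m.filter (fun p : ℕ × ℕ => p.2 = z)).map Prod.fst) h
  have hr := congrArg (fun m => m.filter (fun p : ℕ × ℕ => ¬ p.2 = z)) h
  simp [Multiset.filter_add, Multiset.filter_cons, Multiset.filter_singleton,
    n1, n2, n3, n4, p2, p4] at hz hr
  rcases ms_two hz with ⟨e1, e2⟩ | ⟨e1, e2⟩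
  · subst e1 e2
    refine ⟨⟨rfl, rfl⟩, ?_⟩
    rw [Multiset.cons_swap (v2, w2), Multiset.cons_swap (v4, w4), Multiset.cons_inj_right] at hr
    exact bd_inj b1 b2 d1 d2 hr
  · omega

lemma case_23 (a1 : u1 < v1) (a2 : v1 < z) (b1 : u2 < v2) (b2 : v2 < z) (c1 : u3 < v3)
    (c2 : v3 < z) (d1 : u4 < v4) (d2 : v4 < w4) (m4 : w4 < z)
    (h : Rel (u1, v1, z) (u2, v2, z) (u3, v3, z) (u4, v4, w4)) :
    Tet (u1, v1, z) (u2, v2, z) (u3, v3, z) (u4, v4, w4) := by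
  unfold Rel pos at h
  have n1 : v1 ≠ z := by omega
  have n2 : v2 ≠ z := by omega
  have n3 : v3 ≠ z := by omega
  have n4 : v4 ≠ z := by omega
  have p4 : w4 ≠ z := by omega
  have hz := congrArg (fun m => (m.filter (fun p : ℕ × ℕ => p.2 = z)).map Prod.fst) h
  have hr := congrArg (fun m => m.filter (fun p : ℕ × ℕ => ¬ p.2 = z)) h
  simp [Multiset.filter_add, Multiset.filter_cons, Multiset.filter_singleton,
    n1, n2, n3, n4, p4] at hz hr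
  rcases ms_three hz with ⟨e, h'⟩ | ⟨e, h'⟩ | ⟨e, h'⟩
  · rcases ms_two h' with ⟨e1, e2⟩ | ⟨e1, e2⟩
    · subst e e1 e2
      rw [Multiset.cons_swap (u3, v1), Multiset.cons_swap (v4, w4)] at hr
      rw [Multiset.cons_swap (u3, v2)] at hr
      rw [← Multiset.insert_eq_cons (u3, v2), Multiset.pair_comm (u3, v2)] at hr
      obtain ⟨rfl, rfl, rfl⟩ := bd_inj a1 b1 d1 d2 hr
      exact ⟨u4, v4, w4, z, a1, b1, b2, Or.inl ⟨rfl, rfl⟩, Or.inl ⟨rfl, rfl⟩⟩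
    · omega
  · omega
  · rcases ms_two h' with ⟨e1, e2⟩ | ⟨e1, e2⟩
    · subst e e1 e2
      rw [Multiset.cons_swap (v4, w4)] at hr
      rw [Multiset.cons_swap (u3, v1)] at hr
      rw [← Multiset.insert_eq_cons (u3, v1), Multiset.pair_comm (u3, v1)] at hr
      obtain ⟨rfl, rfl, rfl⟩ := bd_inj b1 a1 d1 d2 hr
      exact ⟨u4, v4, w4, z, b1, a1, a2, Or.inr ⟨rfl, rfl⟩, Or.inl ⟨rfl, rfl⟩⟩
    · omega

lemma case_all (a1 : u1 < v1) (a2 : v1 < z) (b1 : u2 < v2) (b2 : v2 < z) (c1 : u3 < v3)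
    (c2 : v3 < z) (d1 : u4 < v4) (d2 : v4 < z)
    (h : Rel (u1, v1, z) (u2, v2, z) (u3, v3, z) (u4, v4, z)) :
    (u1 = u3 ∧ v1 = v3 ∧ u2 = u4 ∧ v2 = v4) ∨ (u1 = u4 ∧ v1 = v4 ∧ u2 = u3 ∧ v2 = v3) := by
  unfold Rel pos at h
  have n1 : v1 ≠ z := by omega
  have n2 : v2 ≠ z := by omega
  have n3 : v3 ≠ z := by omega
  have n4 : v4 ≠ z := by omega
  have hr := congrArg (fun m => m.filter (fun p : ℕ × ℕ => ¬ p.2 = z)) h
  simp [Multiset.filter_add, Multiset.filter_cons, Multiset.filter_singleton,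
    n1, n2, n3, n4] at hr
  rcases ms_two hr with ⟨e1, e2⟩ | ⟨e1, e2⟩
  · simp only [Prod.mk.injEq] at e1 e2; left; tauto
  · simp only [Prod.mk.injEq] at e1 e2; right; tauto

lemma Tet.swap_right {s t s' t' : ℕ × ℕ × ℕ} (h : Tet s t s' t') : Tet s t t' s' := by
  obtain ⟨u, v, w, z, h1, h2, h3, h4, h5⟩ := h
  exact ⟨u, v, w, z, h1, h2, h3, h4, h5.symm⟩

lemma Tet.swap_left {s t s' t' : ℕ × ℕ × ℕ} (h : Tet s t s' t') : Tet t s s' t' := by
  obtain ⟨u, v, w, z, h1, h2, h3, h4, h5⟩ := h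
  exact ⟨u, v, w, z, h1, h2, h3, h4.symm, h5⟩

/-- the conclusion of the classification -/
def Cls (s t s' t' : ℕ × ℕ × ℕ) : Prop :=
  (s = s' ∧ t = t') ∨ (s = t' ∧ t = s') ∨ Tet s t s' t' ∨ Tet s' t' s t

lemma Cls.symm {s t s' t' : ℕ × ℕ × ℕ} (h : Cls s t s' t') : Cls s' t' s t := by
  rcases h with ⟨h1, h2⟩ | ⟨h1, h2⟩ | h | h
  · exact Or.inl ⟨h1.symm, h2.symm⟩
  · exact Or.inr (Or.inl ⟨h2.symm, h1.symm⟩)
  · exact Or.inr (Or.inr (Or.inr h))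
  · exact Or.inr (Or.inr (Or.inl h))

lemma Cls.swap_left {s t s' t' : ℕ × ℕ × ℕ} (h : Cls s t s' t') : Cls t s s' t' := by
  rcases h with ⟨h1, h2⟩ | ⟨h1, h2⟩ | h | h
  · exact Or.inr (Or.inl ⟨h2, h1⟩)
  · exact Or.inl ⟨h2, h1⟩
  · exact Or.inr (Or.inr (Or.inl h.swap_left))
  · exact Or.inr (Or.inr (Or.inr h.swap_right))

lemma Cls.swap_right {s t s' t' : ℕ × ℕ × ℕ} (h : Cls s t s' t') : Cls s t t' s' :=
  h.symm.swap_left.symm

lemma classify_max {s t s' t' : ℕ × ℕ × ℕ} (hs : Inc s) (ht : Inc t) (hs' : Inc s')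
    (ht' : Inc t') (h : Rel s t s' t') (m2 : t.2.2 ≤ s.2.2) (m3 : s'.2.2 ≤ s.2.2)
    (m4 : t'.2.2 ≤ s.2.2) : Cls s t s' t' := by
  obtain ⟨u1, v1, z⟩ := s
  obtain ⟨u2, v2, w2⟩ := t
  obtain ⟨u3, v3, w3⟩ := s'
  obtain ⟨u4, v4, w4⟩ := t'
  obtain ⟨a1, a2⟩ := hs
  obtain ⟨b1, b2⟩ := ht
  obtain ⟨c1, c2⟩ := hs'
  obtain ⟨d1, d2⟩ := ht'
  simp only at a1 a2 b1 b2 c1 c2 d1 d2 m2 m3 m4
  rcases m2.lt_or_eq with m2 | rfl <;> rcases m3.lt_or_eq with m3 | rfl <;>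
    rcases m4.lt_or_eq with m4 | rfl
  · exact (case_none a1 a2 b2 c2 d2 m2 m3 m4 h).elim
  · obtain ⟨⟨rfl, rfl⟩, rfl, rfl, rfl⟩ := case_3 a1 a2 b1 b2 d1 d2 c1 c2 m2 m3 h.swap_right
    exact Or.inr (Or.inl ⟨rfl, rfl⟩)
  · obtain ⟨⟨rfl, rfl⟩, rfl, rfl, rfl⟩ := case_3 a1 a2 b1 b2 c1 c2 d1 d2 m2 m4 h
    exact Or.inl ⟨rfl, rfl⟩
  · exact Or.inr (Or.inr (Or.inr (case_23 c1 c2 d1 d2 a1 a2 b1 b2 m2 h.symm)))
  · exact (case_2 a1 a2 b1 b2 c2 d2 m3 m4 h).elim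
  · exact Or.inr (Or.inr (Or.inl
      (case_23 a1 a2 b1 b2 d1 d2 c1 c2 m3 h.swap_right).swap_right))
  · exact Or.inr (Or.inr (Or.inl (case_23 a1 a2 b1 b2 c1 c2 d1 d2 m4 h)))
  · rcases case_all a1 a2 b1 b2 c1 c2 d1 d2 h with ⟨rfl, rfl, rfl, rfl⟩ | ⟨rfl, rfl, rfl, rfl⟩
    · exact Or.inl ⟨rfl, rfl⟩
    · exact Or.inr (Or.inl ⟨rfl, rfl⟩)

/-- **Classification**: the only coincidences between sums of two boundaries are tetrahedra. -/
theorem classify {s t s' t' : ℕ × ℕ × ℕ} (hs : Inc s) (ht : Inc t) (hs' : Inc s')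
    (ht' : Inc t') (h : Rel s t s' t') : Cls s t s' t' := by
  by_cases h1 : t.2.2 ≤ s.2.2 ∧ s'.2.2 ≤ s.2.2 ∧ t'.2.2 ≤ s.2.2
  · exact classify_max hs ht hs' ht' h h1.1 h1.2.1 h1.2.2
  by_cases h2 : s.2.2 ≤ t.2.2 ∧ s'.2.2 ≤ t.2.2 ∧ t'.2.2 ≤ t.2.2
  · exact (classify_max ht hs hs' ht' h.swap_left h2.1 h2.2.1 h2.2.2).swap_left
  by_cases h3 : t'.2.2 ≤ s'.2.2 ∧ s.2.2 ≤ s'.2.2 ∧ t.2.2 ≤ s'.2.2
  · exact (classify_max hs' ht' hs ht h.symm h3.1 h3.2.1 h3.2.2).symm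
  · have h4 : s'.2.2 ≤ t'.2.2 ∧ s.2.2 ≤ t'.2.2 ∧ t.2.2 ≤ t'.2.2 := by omega
    exact (classify_max ht' hs' hs ht h.symm.swap_left h4.1 h4.2.1 h4.2.2).swap_left.symm

end Pool.Agent.MP_33952e_nt.P
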