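import Pool.Agent.Lib.MP_33952e_nt_P.Defs
import Pool.Agent.Lib.MP_33952e_nt_P.Triples

/-!
# Integers attached to triangles
-/

set_option autoImplicit false

namespace Pool.Agent.MP_33952e_nt.P

/-- the power of ten which belongs to a pair -/
def pw (a b : ℕ) : ℕ := 10 ^ Nat.pair a b

/-- the integer attached to a triple -/
def val (t : ℕ × ℕ × ℕ) : ℕ := pw t.2.1 t.2.2 - pw t.1 t.2.2 + pw t.1 t.2.1

lemma pw_le {a b c : ℕ} (h : a < b) : pw a c ≤ pw b c :=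
  Nat.pow_le_pow_right (by norm_num) (Nat.pair_lt_pair_left c h).le

lemma val_add {t : ℕ × ℕ × ℕ} (ht : Inc t) :
    val t + pw t.1 t.2.2 = pw t.2.1 t.2.2 + pw t.1 t.2.1 := by
  have := pw_le (c := t.2.2) ht.1
  unfold val
  omega

lemma psum_pair (m : Multiset (ℕ × ℕ)) :
    psum 10 (m.map fun p => Nat.pair p.1 p.2) = (m.map fun p => pw p.1 p.2).sum := by
  unfold psum pw
  rw [Multiset.map_map]
  rfl

lemma pair_inj : Function.Injective fun p : ℕ × ℕ => Nat.pair p.1 p.2 := by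
  rintro ⟨a, b⟩ ⟨c, d⟩ h
  have := Nat.pair_eq_pair.1 h
  simp only [Prod.mk.injEq]
  exact this

lemma rel_of_val {s t s' t' : ℕ × ℕ × ℕ} (hs : Inc s) (ht : Inc t) (hs' : Inc s')
    (ht' : Inc t') (h : val s + val t = val s' + val t') : Rel s t s' t' := by
  unfold Rel
  apply Multiset.map_injective pair_inj
  apply psum_injective (b := 10)
  · simp [pos]
  · simp [pos]
  · rw [psum_pair, psum_pair]
    have e1 := val_add hs
    have e2 := val_add ht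
    have e3 := val_add hs'
    have e4 := val_add ht'
    simp only [pos, Multiset.map_add, Multiset.sum_add, Multiset.insert_eq_cons,
      Multiset.map_cons, Multiset.map_singleton, Multiset.sum_cons, Multiset.sum_singleton]
    omega

lemma val_inj {s t : ℕ × ℕ × ℕ} (hs : Inc s) (ht : Inc t) (h : val s = val t) : s = t := by
  have h1 := classify hs hs ht ht (rel_of_val hs hs ht ht (by rw [h]))
  rcases h1 with ⟨h1, -⟩ | ⟨h1, -⟩ | ⟨u, v, w, z, h1, h2, h3, h4, -⟩ | ⟨u, v, w, z, h1, h2, h3, h4, -⟩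
  · exact h1
  · exact h1
  · exfalso
    rcases h4 with ⟨e1, e2⟩ | ⟨e1, e2⟩ <;> rw [e1] at e2 <;> simp only [Prod.mk.injEq] at e2 <;>
      omega
  · exfalso
    rcases h4 with ⟨e1, e2⟩ | ⟨e1, e2⟩ <;> rw [e1] at e2 <;> simp only [Prod.mk.injEq] at e2 <;>
      omega

lemma val_tet {u v w z : ℕ} (h1 : u < v) (h2 : v < w) (h3 : w < z) :
    val (u, v, z) + val (v, w, z) = val (u, w, z) + val (u, v, w) := by
  have e1 := val_add (t := (u, v, z)) ⟨h1, h2.trans h3⟩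
  have e2 := val_add (t := (v, w, z)) ⟨h2, h3⟩
  have e3 := val_add (t := (u, w, z)) ⟨h1.trans h2, h3⟩
  have e4 := val_add (t := (u, v, w)) ⟨h1, h2⟩
  simp only at e1 e2 e3 e4
  omega

/-- the set of triples has no tetrahedron -/
def TetFree (T : Set (ℕ × ℕ × ℕ)) : Prop :=
  ∀ u v w z : ℕ, (u, v, w) ∈ T → (u, v, z) ∈ T → (u, w, z) ∈ T → (v, w, z) ∉ T

lemma sidon_of_tetFree {T : Set (ℕ × ℕ × ℕ)} (hT : ∀ t ∈ T, Inc t) (h : TetFree T) :
    IsSidon (val '' T) := by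
  rintro _ ⟨s, hs, rfl⟩ _ ⟨t, ht, rfl⟩ _ ⟨s', hs', rfl⟩ _ ⟨t', ht', rfl⟩ heq
  have key : ∀ {a b c d : ℕ × ℕ × ℕ}, a ∈ T → b ∈ T → c ∈ T → d ∈ T → ¬ Tet a b c d := by
    rintro a b c d ha hb hc hd ⟨u, v, w, z, h1, h2, h3, h4, h5⟩
    rcases h4 with ⟨rfl, rfl⟩ | ⟨rfl, rfl⟩ <;> rcases h5 with ⟨rfl, rfl⟩ | ⟨rfl, rfl⟩
    · exact h u v w z hd ha hc hb
    · exact h u v w z hc ha hd hb
    · exact h u v w z hd hb hc ha
    · exact h u v w z hc hb hd ha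
  rcases classify (hT _ hs) (hT _ ht) (hT _ hs') (hT _ ht')
    (rel_of_val (hT _ hs) (hT _ ht) (hT _ hs') (hT _ ht') heq) with
    ⟨rfl, rfl⟩ | ⟨rfl, rfl⟩ | h1 | h1
  · exact Or.inl ⟨rfl, rfl⟩
  · exact Or.inr ⟨rfl, rfl⟩
  · exact (key hs ht hs' ht' h1).elim
  · exact (key hs' ht' hs ht h1).elim

/-- a tetrahedron is not in a `B₂` set -/
lemma not_sidon {u v w z : ℕ} (h1 : u < v) (h2 : v < w) (h3 : w < z) {S : Set ℕ}
    (hS : IsSidon S) (a1 : val (u, v, w) ∈ S) (a2 : val (u, v, z) ∈ S)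
    (a3 : val (u, w, z) ∈ S) (a4 : val (v, w, z) ∈ S) : False := by
  rcases hS _ a2 _ a4 _ a3 _ a1 (val_tet h1 h2 h3) with ⟨e, -⟩ | ⟨e, -⟩
  · have := val_inj (s := (u, v, z)) (t := (u, w, z)) ⟨h1, h2.trans h3⟩ ⟨h1.trans h2, h3⟩ e
    simp only [Prod.mk.injEq] at this
    omega
  · have := val_inj (s := (u, v, z)) (t := (u, v, w)) ⟨h1, h2.trans h3⟩ ⟨h1, h2⟩ e
    simp only [Prod.mk.injEq] at this
    omega

end Pool.Agent.MP_33952e_nt.P
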