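import Pool.Agent.Lib.MP_33952e_nt_P.Base
import Pool.Agent.Lib.MP_33952e_nt_P.Argmin
import Pool.Agent.Lib.MP_33952e_nt_P.Values

/-!
# The set of integers
-/

set_option autoImplicit false

namespace Pool.Agent.MP_33952e_nt.P

section

variable {q : ℕ} (S : ℕ → Sys (Fin q → ℕ))

/-- all vertices -/
abbrev AllV : Type := Σ C : ℕ, (S C).V

/-- all labelled triples -/
def TT (l : Fin q → ℕ) (a b c : AllV S) : Prop :=
  ∃ (C : ℕ) (u v w : (S C).V), a = ⟨C, u⟩ ∧ b = ⟨C, v⟩ ∧ c = ⟨C, w⟩ ∧ (S C).T l u v w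

lemma TT_good (hS : ∀ C, Valid (E4 q) (S C)) {l1 l2 l3 l4 : Fin q → ℕ} {a b c d : AllV S}
    (h4 : TT S l4 a b c) (h3 : TT S l3 a b d) (h2 : TT S l2 a c d) (h1 : TT S l1 b c d) :
    E4 q l1 l2 l3 l4 := by
  obtain ⟨C, u, v, w, rfl, rfl, rfl, h4⟩ := h4
  obtain ⟨C', u', v', z, e1, e2, rfl, h3⟩ := h3
  obtain ⟨rfl, e1⟩ := Sigma.mk.inj_iff.1 e1
  obtain rfl := eq_of_heq e1
  obtain ⟨-, e2⟩ := Sigma.mk.inj_iff.1 e2
  obtain rfl := eq_of_heq e2
  obtain ⟨C', u', w', z', e1, e2, e3, h2⟩ := h2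
  obtain ⟨rfl, e1⟩ := Sigma.mk.inj_iff.1 e1
  obtain rfl := eq_of_heq e1
  obtain ⟨-, e2⟩ := Sigma.mk.inj_iff.1 e2
  obtain rfl := eq_of_heq e2
  obtain ⟨-, e3⟩ := Sigma.mk.inj_iff.1 e3
  obtain rfl := eq_of_heq e3
  obtain ⟨C', u', w', z', e1, e2, e3, h1⟩ := h1
  obtain ⟨rfl, e1⟩ := Sigma.mk.inj_iff.1 e1
  obtain rfl := eq_of_heq e1
  obtain ⟨-, e2⟩ := Sigma.mk.inj_iff.1 e2
  obtain rfl := eq_of_heq e2
  obtain ⟨-, e3⟩ := Sigma.mk.inj_iff.1 e3
  obtain rfl := eq_of_heq e3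
  exact (hS C).good _ _ _ _ _ _ _ _ h4 h3 h2 h1

/-- an injective numbering of a finite set of vertices -/
lemma exists_idx (C : ℕ) : ∃ (m : ℕ) (f : (S C).V → ℕ), Function.Injective f ∧ ∀ v, f v < m := by
  have := (S C).fin
  obtain ⟨m, ⟨e⟩⟩ := Finite.exists_equiv_fin (S C).V
  exact ⟨m, fun v => e v, fun a b h => e.injective (Fin.ext h), fun v => (e v).2⟩

/-- the number of a vertex -/
noncomputable def num (a : AllV S) : ℕ :=
  Nat.pair a.1 ((S a.1).part a.2 * (exists_idx S a.1).choose +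
    (exists_idx S a.1).choose_spec.choose a.2)

lemma num_inj : Function.Injective (num S) := by
  rintro ⟨C, u⟩ ⟨C', v⟩ h
  unfold num at h
  obtain ⟨h1, h2⟩ := Nat.pair_eq_pair.1 h
  simp only at h1 h2
  subst h1
  obtain ⟨hinj, hlt⟩ := (exists_idx S C).choose_spec.choose_spec
  have e1 := hlt u
  have e2 := hlt v
  have h3 : (exists_idx S C).choose_spec.choose u = (exists_idx S C).choose_spec.choose v := by
    have f1 := Nat.mul_add_mod_of_lt (a := (S C).part u) e1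
    have f2 := Nat.mul_add_mod_of_lt (a := (S C).part v) e2
    rw [← f1, ← f2, h2]
  rw [hinj h3]

lemma num_lt (C : ℕ) {u v : (S C).V} (h : (S C).part u < (S C).part v) :
    num S ⟨C, u⟩ < num S ⟨C, v⟩ := by
  unfold num
  apply Nat.pair_lt_pair_right
  simp only
  obtain ⟨hinj, hlt⟩ := (exists_idx S C).choose_spec.choose_spec
  have e1 := hlt u
  have h2 : ((S C).part u + 1) * (exists_idx S C).choose ≤
      (S C).part v * (exists_idx S C).choose := Nat.mul_le_mul_right _ h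
  rw [add_mul, one_mul] at h2
  omega

/-- the triples of numbers -/
def KK : Set (ℕ × ℕ × ℕ) := {t | ∃ (l : Fin q → ℕ) (a b c : AllV S), Function.Injective l ∧
  TT S l a b c ∧ t = (num S a, num S b, num S c)}

lemma KK_inc (hS : ∀ C, Valid (E4 q) (S C)) : ∀ t ∈ KK S, Inc t := by
  rintro _ ⟨l, a, b, c, -, ⟨C, u, v, w, rfl, rfl, rfl, hT⟩, rfl⟩
  obtain ⟨h1, h2⟩ := (hS C).trans _ _ _ _ hT
  exact ⟨num_lt S C h1, num_lt S C h2⟩

end

open Classical in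
/-- large `B₂` subsets -/
lemma propertyP {Q : ℕ} (hQ : 0 < Q) (S : ℕ → Sys (Fin (4 * Q) → ℕ))
    (hS : ∀ C, Valid (E4 (4 * Q)) (S C)) {δ : ℝ} (hδ : 4 * Q * δ ≤ 3 * Q - 6) :
    PropertyP δ (val '' KK S) := by
  intro A hA
  have hch : ∀ a : ℕ, ∃ (t : ℕ × ℕ × ℕ) (l : Fin (4 * Q) → ℕ), a ∈ A → t ∈ KK S ∧ val t = a ∧
      Function.Injective l ∧ ∃ (x y z : AllV S), TT S l x y z ∧ t = (num S x, num S y, num S z) := by
    intro a
    by_cases ha : a ∈ A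
    · obtain ⟨t, ht, hta⟩ := hA ha
      obtain ⟨l, x, y, z, h1, h2, h3⟩ := id ht
      exact ⟨t, l, fun _ => ⟨ht, hta, h1, x, y, z, h2, h3⟩⟩
    · exact ⟨(0, 0, 0), fun _ => 0, fun h => (ha h).elim⟩
  choose t l htl using hch
  obtain ⟨ρ, hρ, hcard⟩ := ratio hQ A l fun a ha => (htl a ha).2.2.1
  refine ⟨A.filter fun a => l a ∈ Keep (4 * Q) ρ, Finset.filter_subset _ _, ?_, ?_⟩
  · have h1 := Finset.card_filter_add_card_filter_not (s := A) (fun a => l a ∈ Keep (4 * Q) ρ)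
    have h2 : (4 * Q : ℝ) * (A.filter fun a => l a ∉ Keep (4 * Q) ρ).card ≤
        (Q + 6) * A.card := by exact_mod_cast hcard
    have h3 : ((A.filter fun a => l a ∈ Keep (4 * Q) ρ).card : ℝ) +
        (A.filter fun a => l a ∉ Keep (4 * Q) ρ).card = A.card := by exact_mod_cast h1
    have hQ' : (0 : ℝ) < Q := by exact_mod_cast hQ
    have h4 : (4 * Q * δ) * A.card ≤ (3 * Q - 6) * A.card :=
      mul_le_mul_of_nonneg_right hδ (Nat.cast_nonneg _)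
    have h5 : 4 * Q * (δ * A.card) ≤ 4 * Q * ((A.filter fun a => l a ∈ Keep (4 * Q) ρ).card : ℝ) := by
      have h6 : ((A.filter fun a => l a ∈ Keep (4 * Q) ρ).card : ℝ) = A.card -
        (A.filter fun a => l a ∉ Keep (4 * Q) ρ).card := by linarith
      rw [h6]
      nlinarith
    exact le_of_mul_le_mul_left h5 (by positivity)
  · have hsub : ((A.filter fun a => l a ∈ Keep (4 * Q) ρ : Finset ℕ) : Set ℕ) ⊆
        val '' (t '' {a | a ∈ A ∧ l a ∈ Keep (4 * Q) ρ}) := by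
      intro a ha
      simp only [Finset.coe_filter, Set.mem_setOf_eq] at ha
      exact ⟨t a, ⟨a, ha, rfl⟩, (htl a ha.1).2.1⟩
    have hsid : IsSidon (val '' (t '' {a | a ∈ A ∧ l a ∈ Keep (4 * Q) ρ})) := by
      apply sidon_of_tetFree
      · rintro _ ⟨a, ha, rfl⟩
        exact KK_inc S hS _ (htl a ha.1).1
      · rintro u v w z ⟨a4, h4, e4⟩ ⟨a3, h3, e3⟩ ⟨a2, h2, e2⟩ ⟨a1, h1, e1⟩
        obtain ⟨-, -, -, x4, y4, z4, T4, f4⟩ := htl a4 h4.1
        obtain ⟨-, -, -, x3, y3, z3, T3, f3⟩ := htl a3 h3.1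
        obtain ⟨-, -, -, x2, y2, z2, T2, f2⟩ := htl a2 h2.1
        obtain ⟨-, -, -, x1, y1, z1, T1, f1⟩ := htl a1 h1.1
        rw [f4] at e4
        rw [f3] at e3
        rw [f2] at e2
        rw [f1] at e1
        simp only [Prod.mk.injEq] at e1 e2 e3 e4
        obtain ⟨p1, p2, p3⟩ := e4
        obtain ⟨q1, q2, q3⟩ := e3
        obtain ⟨r1, r2, r3⟩ := e2
        obtain ⟨s1, s2, s3⟩ := e1
        obtain rfl : x4 = x3 := num_inj S (p1.trans q1.symm)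
        obtain rfl : x4 = x2 := num_inj S (p1.trans r1.symm)
        obtain rfl : y4 = y3 := num_inj S (p2.trans q2.symm)
        obtain rfl : y4 = x1 := num_inj S (p2.trans s1.symm)
        obtain rfl : z4 = y2 := num_inj S (p3.trans r2.symm)
        obtain rfl : z4 = y1 := num_inj S (p3.trans s2.symm)
        obtain rfl : z3 = z2 := num_inj S (q3.trans r3.symm)
        obtain rfl : z3 = z1 := num_inj S (q3.trans s3.symm)
        obtain ⟨x, hx, g1, g2, g3, g4⟩ := TT_good S hS T4 T3 T2 T1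
        refine hit (by omega) hρ hx fun s hs => ?_
        have hs' : s = 0 ∨ s = 1 ∨ s = 2 ∨ s = 3 := by omega
        rcases hs' with rfl | rfl | rfl | rfl
        · rw [← g1]; exact h1.2
        · rw [← g2]; exact h2.2
        · rw [← g3]; exact h3.2
        · rw [← g4]; exact h4.2
    intro a ha b hb c hc d hd
    exact hsid a (hsub ha) b (hsub hb) c (hsub hc) d (hsub hd)

open Classical in
/-- no finite union of `B₂` sets -/
lemma not_union {q : ℕ} (S : ℕ → Sys (Fin q → ℕ)) (hS : ∀ C, Valid (E4 q) (S C))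
    (hR : ∀ C, ∀ χ : (S C).V → (S C).V → (S C).V → Fin (C + 1),
      ∃ (u v w z : (S C).V) (l1 l2 l3 l4 : Fin q → ℕ),
      (S C).T l4 u v w ∧ (S C).T l3 u v z ∧ (S C).T l2 u w z ∧ (S C).T l1 v w z ∧
      Function.Injective l1 ∧ Function.Injective l2 ∧ Function.Injective l3 ∧
      Function.Injective l4 ∧ χ u v w = χ u v z ∧ χ u v z = χ u w z ∧ χ u w z = χ v w z)
    (C : ℕ) (P : Fin C → Set ℕ) (hP : ∀ i, IsSidon (P i)) : ¬ val '' KK S ⊆ ⋃ i, P i := by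
  intro hsub
  let f : ℕ → Fin (C + 1) := fun b => if h : ∃ i, b ∈ P i then h.choose.castSucc else Fin.last C
  have hf : ∀ b ∈ val '' KK S, ∃ i : Fin C, f b = i.castSucc ∧ b ∈ P i := by
    intro b hb
    have h := hsub hb
    rw [Set.mem_iUnion] at h
    exact ⟨h.choose, by simp only [f]; rw [dif_pos h], h.choose_spec⟩
  obtain ⟨u, v, w, z, l1, l2, l3, l4, T4, T3, T2, T1, i1, i2, i3, i4, c1, c2, c3⟩ :=
    hR C fun u v w => f (val (num S ⟨C, u⟩, num S ⟨C, v⟩, num S ⟨C, w⟩))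
  have k4 : val (num S ⟨C, u⟩, num S ⟨C, v⟩, num S ⟨C, w⟩) ∈ val '' KK S :=
    ⟨_, ⟨l4, _, _, _, i4, ⟨C, u, v, w, rfl, rfl, rfl, T4⟩, rfl⟩, rfl⟩
  have k3 : val (num S ⟨C, u⟩, num S ⟨C, v⟩, num S ⟨C, z⟩) ∈ val '' KK S :=
    ⟨_, ⟨l3, _, _, _, i3, ⟨C, u, v, z, rfl, rfl, rfl, T3⟩, rfl⟩, rfl⟩
  have k2 : val (num S ⟨C, u⟩, num S ⟨C, w⟩, num S ⟨C, z⟩) ∈ val '' KK S :=
    ⟨_, ⟨l2, _, _, _, i2, ⟨C, u, w, z, rfl, rfl, rfl, T2⟩, rfl⟩, rfl⟩
  have k1 : val (num S ⟨C, v⟩, num S ⟨C, w⟩, num S ⟨C, z⟩) ∈ val '' KK S :=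
    ⟨_, ⟨l1, _, _, _, i1, ⟨C, v, w, z, rfl, rfl, rfl, T1⟩, rfl⟩, rfl⟩
  obtain ⟨j4, f4, m4⟩ := hf _ k4
  obtain ⟨j3, f3, m3⟩ := hf _ k3
  obtain ⟨j2, f2, m2⟩ := hf _ k2
  obtain ⟨j1, f1, m1⟩ := hf _ k1
  rw [f4, f3] at c1
  rw [f3, f2] at c2
  rw [f2, f1] at c3
  obtain rfl := Fin.castSucc_injective _ c1
  obtain rfl := Fin.castSucc_injective _ c2
  obtain rfl := Fin.castSucc_injective _ c3
  obtain ⟨p1, p2⟩ := (hS C).trans _ _ _ _ T4
  obtain ⟨p3, p4⟩ := (hS C).trans _ _ _ _ T1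
  exact not_sidon (num_lt S C p1) (num_lt S C p2) (num_lt S C p4) (hP j4) m4 m3 m2 m1

lemma isSidon_singleton (n : ℕ) : IsSidon {n} := by
  rintro a rfl b rfl c rfl d rfl -
  exact Or.inl ⟨rfl, rfl⟩

lemma infinite_of_not_union {B : Set ℕ}
    (h : ∀ (C : ℕ) (P : Fin C → Set ℕ), (∀ i, IsSidon (P i)) → ¬ B ⊆ ⋃ i, P i) : B.Infinite := by
  intro hB
  have := hB.to_subtype
  obtain ⟨n, ⟨e⟩⟩ := Finite.exists_equiv_fin B
  refine h n (fun i => {(e.symm i : ℕ)}) (fun i => isSidon_singleton _) fun b hb => ?_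
  rw [Set.mem_iUnion]
  exact ⟨e ⟨b, hb⟩, by simp⟩

/-- below `3/4` -/
theorem below {δ : ℝ} (hδ : δ < 3 / 4) : ∃ B : Set ℕ, B.Infinite ∧ PropertyP δ B ∧
    ∀ (C : ℕ) (P : Fin C → Set ℕ), (∀ i, IsSidon (P i)) → ¬ B ⊆ ⋃ i, P i := by
  obtain ⟨Q, hQ⟩ := exists_nat_gt (6 / (3 - 4 * δ))
  have hpos : 0 < 3 - 4 * δ := by linarith
  have hQ0 : (0 : ℝ) < Q := lt_trans (by positivity) hQ
  have hQ1 : 0 < Q := by exact_mod_cast hQ0
  have hQ2 : 4 * Q * δ ≤ 3 * Q - 6 := by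
    rw [div_lt_iff₀ hpos] at hQ
    nlinarith
  choose S hS hR using fun C : ℕ => exists_sys (4 * Q) (Fin (C + 1))
  have h1 := not_union S hS hR
  exact ⟨val '' KK S, infinite_of_not_union h1, propertyP hQ1 S hS hQ2, h1⟩

open Classical in
/-- above `3/4` -/
theorem above {δ : ℝ} (hδ : 3 / 4 < δ) {B : Set ℕ} (hB : PropertyP δ B) : IsSidon B := by
  intro a ha b hb c hc d hd h
  obtain ⟨S, hS, hc1, hs⟩ := hB {a, b, c, d} (by
    intro x hx
    simp only [Finset.coe_insert, Finset.coe_singleton, Set.mem_insert_iff,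
      Set.mem_singleton_iff] at hx
    rcases hx with rfl | rfl | rfl | rfl <;> assumption)
  have h4 : ({a, b, c, d} : Finset ℕ).card ≤ 4 := Finset.card_le_four
  have h0 : 0 < ({a, b, c, d} : Finset ℕ).card := Finset.card_pos.2 ⟨a, by simp⟩
  have h5 : ({a, b, c, d} : Finset ℕ).card ≤ S.card := by
    set m := ({a, b, c, d} : Finset ℕ).card with hm
    by_contra hlt
    push Not at hlt
    have h6 : S.card + 1 ≤ m := hlt
    have h7 : (S.card : ℝ) + 1 ≤ m := by exact_mod_cast h6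
    have h8 : (m : ℝ) ≤ 4 := by exact_mod_cast h4
    have h9 : (0 : ℝ) < m := by exact_mod_cast h0
    nlinarith
  have h6 : S = {a, b, c, d} := Finset.eq_of_subset_of_card_le hS h5
  rw [h6] at hs
  exact hs a (by simp) b (by simp) c (by simp) d (by simp) h

end Pool.Agent.MP_33952e_nt.P
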