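import Mathlib

/-!
# Sums of few powers of a base

A multiset of fewer than `b` natural numbers is determined by the sum of the powers `b ^ n`.
-/

set_option autoImplicit false

namespace Pool.Agent.MP_33952e_nt.P

open Multiset

/-- the sum of the powers `b ^ n` over the multiset -/
def psum (b : ℕ) (s : Multiset ℕ) : ℕ := (s.map fun n => b ^ n).sum

lemma psum_zero (b : ℕ) : psum b 0 = 0 := by simp [psum]

lemma psum_cons (b n : ℕ) (s : Multiset ℕ) : psum b (n ::ₘ s) = b ^ n + psum b s := by
  simp [psum]

lemma psum_pos {b : ℕ} (hb : 0 < b) {s : Multiset ℕ} (hs : s ≠ 0) : 0 < psum b s := by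
  obtain ⟨a, ha⟩ := Multiset.exists_mem_of_ne_zero hs
  obtain ⟨t, rfl⟩ := Multiset.exists_cons_of_mem ha
  rw [psum_cons]
  have : 0 < b ^ a := pow_pos hb a
  omega

/-- the zeros and the predecessors of the other members -/
lemma split (s : Multiset ℕ) :
    ∃ (k : ℕ) (t : Multiset ℕ), s = replicate k 0 + t.map Nat.succ := by
  induction s using Multiset.induction_on with
  | empty => exact ⟨0, 0, by simp⟩
  | cons a s ih =>
    obtain ⟨k, t, rfl⟩ := ih
    rcases a with _ | a
    · exact ⟨k + 1, t, by rw [Multiset.replicate_succ, Multiset.cons_add]⟩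
    · exact ⟨k, a ::ₘ t, by rw [Multiset.map_cons, Multiset.add_cons]⟩

lemma psum_split (b k : ℕ) (t : Multiset ℕ) :
    psum b (replicate k 0 + t.map Nat.succ) = k + b * psum b t := by
  unfold psum
  rw [Multiset.map_add, Multiset.sum_add, Multiset.map_replicate, Multiset.sum_replicate,
    Multiset.map_map]
  simp only [pow_zero, smul_eq_mul, mul_one, Function.comp_def]
  congr 1
  rw [← Multiset.sum_map_mul_left]
  congr 1
  refine Multiset.map_congr rfl fun n _ => ?_
  rw [Nat.succ_eq_add_one, pow_succ, mul_comm]

theorem psum_inj {b : ℕ} : ∀ (N : ℕ) (s t : Multiset ℕ), psum b s ≤ N → card s < b →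
    card t < b → psum b s = psum b t → s = t := by
  intro N
  induction N with
  | zero =>
    intro s t h hs ht heq
    have hb : 0 < b := by omega
    have h1 : s = 0 := by
      by_contra hne
      have := psum_pos hb hne
      omega
    have h2 : t = 0 := by
      by_contra hne
      have := psum_pos hb hne
      omega
    rw [h1, h2]
  | succ N ih =>
    intro s t h hs ht heq
    have hb : 0 < b := by omega
    by_cases h1 : s = 0
    · subst h1
      by_contra hne
      have := psum_pos hb (Ne.symm hne)
      rw [psum_zero] at heq
      omega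
    have hpos := psum_pos hb h1
    obtain ⟨k, s', rfl⟩ := split s
    obtain ⟨l, t', rfl⟩ := split t
    rw [psum_split, psum_split] at heq
    rw [psum_split] at h hpos
    simp only [card_add, card_replicate, card_map] at hs ht
    have hk : k = l := by
      have e1 : (k + b * psum b s') % b = k := by
        rw [Nat.add_mul_mod_self_left, Nat.mod_eq_of_lt (by omega)]
      have e2 : (l + b * psum b t') % b = l := by
        rw [Nat.add_mul_mod_self_left, Nat.mod_eq_of_lt (by omega)]
      rw [← e1, ← e2, heq]
    subst hk
    have h2 : psum b s' = psum b t' := by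
      have : b * psum b s' = b * psum b t' := by omega
      exact Nat.eq_of_mul_eq_mul_left hb this
    have h3 : psum b s' ≤ N := by
      rcases Nat.eq_zero_or_pos (psum b s') with h0 | h0
      · omega
      · by_cases hb1 : b = 1
        · subst hb1
          have : s' = 0 := by
            rw [← Multiset.card_eq_zero]; omega
          rw [this, psum_zero]; omega
        · have : 2 * psum b s' ≤ b * psum b s' := Nat.mul_le_mul_right _ (by omega)
          omega
    rw [ih s' t' h3 (by omega) (by omega) h2]

theorem psum_injective {b : ℕ} {s t : Multiset ℕ} (hs : card s < b) (ht : card t < b)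
    (h : psum b s = psum b t) : s = t :=
  psum_inj _ s t le_rfl hs ht h

end Pool.Agent.MP_33952e_nt.P
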