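import Mathlib

/-!
# Two finite Ramsey statements

For triples (four points whose four triples have one colour) and for windows of length `q`
(`q + 3` points whose four windows have one colour), by ultrafilters.
-/

set_option autoImplicit false

namespace Pool.Agent.MP_33952e_nt.P

open Filter

lemma ulim_exists {α κ : Type} [Finite κ] (U : Ultrafilter α) (f : α → κ) :
    ∃ k, ∀ᶠ x in (U : Filter α), f x = k := by
  obtain ⟨k, hk⟩ := Ultrafilter.eq_pure_of_finite (U.map f)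
  refine ⟨k, ?_⟩
  have h : ({k} : Set κ) ∈ (U.map f : Filter κ) := by
    change ({k} : Set κ) ∈ U.map f
    rw [hk]
    exact Ultrafilter.mem_pure.2 rfl
  exact h

/-- the limit of a function with finitely many values -/
noncomputable def ulim {α κ : Type} [Finite κ] (U : Ultrafilter α) (f : α → κ) : κ :=
  (ulim_exists U f).choose

lemma ulim_spec {α κ : Type} [Finite κ] (U : Ultrafilter α) (f : α → κ) :
    ∀ᶠ x in (U : Filter α), f x = ulim U f := (ulim_exists U f).choose_spec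

lemma hyper_gt (n : ℕ) : ∀ᶠ x in (hyperfilter ℕ : Filter ℕ), n < x := by
  have h : ∀ᶠ x in (atTop : Filter ℕ), n < x := eventually_gt_atTop n
  exact (Nat.hyperfilter_le_atTop) h

theorem ramsey3 (κ : Type) [Finite κ] : ∃ r : ℕ, ∀ c : ℕ → ℕ → ℕ → κ, ∃ i j k l : ℕ,
    i < j ∧ j < k ∧ k < l ∧ l < r ∧ c i j k = c i j l ∧ c i j l = c i k l ∧ c i k l = c j k l := by
  by_contra hcon
  push Not at hcon
  choose c hc using hcon
  set U : Ultrafilter ℕ := hyperfilter ℕ with hU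
  let C3 : ℕ → ℕ → ℕ → κ := fun i j k => ulim U fun r => c r i j k
  let C2 : ℕ → ℕ → κ := fun i j => ulim U fun k => C3 i j k
  let C1 : ℕ → κ := fun i => ulim U fun j => C2 i j
  let C0 : κ := ulim U fun i => C1 i
  have s0 : ∀ᶠ i in (U : Filter ℕ), C1 i = C0 := ulim_spec U _
  have s1 : ∀ i, ∀ᶠ j in (U : Filter ℕ), C2 i j = C1 i := fun i => ulim_spec U _
  have s2 : ∀ i j, ∀ᶠ k in (U : Filter ℕ), C3 i j k = C2 i j := fun i j => ulim_spec U _
  have s3 : ∀ i j k, ∀ᶠ r in (U : Filter ℕ), c r i j k = C3 i j k := fun i j k => ulim_spec U _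
  obtain ⟨i, hi⟩ := s0.exists
  obtain ⟨j, hj, hj1, hj2⟩ := (s0.and ((s1 i).and (hyper_gt i))).exists
  obtain ⟨k, hk1, hk2, hk3, hk4⟩ :=
    ((s1 i).and ((s1 j).and ((s2 i j).and (hyper_gt j)))).exists
  obtain ⟨l, hl1, hl2, hl3, hl4⟩ :=
    ((s2 i j).and ((s2 i k).and ((s2 j k).and (hyper_gt k)))).exists
  obtain ⟨r, hr1, hr2, hr3, hr4, hr5⟩ :=
    ((s3 i j k).and ((s3 i j l).and ((s3 i k l).and ((s3 j k l).and (hyper_gt l))))).exists
  refine hc r i j k l hj2 hk4 hl4 hr5 ?_ ?_ ?_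
  · rw [hr1, hr2, hk3, hl1]
  · rw [hr2, hr3, hl1, hl2, hj1, hk1]
  · rw [hr3, hr4, hl2, hl3, hk1, hk2, hi, hj]

end Pool.Agent.MP_33952e_nt.P
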