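import Mathlib

/-!
# One step of the partite construction

A system is a finite partite 3-graph whose triples carry labels.  For a label `l` and three parts
`a < b < c` there is a larger system such that every colouring of its triples is constant on the
triples with label `l` over the parts `a, b, c` of some copy of the given system.  All tetrahedra
of the larger system lie in copies of the given one.
-/

set_option autoImplicit false

namespace Pool.Agent.MP_33952e_nt.P

open Combinatorics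

/-- a finite 3-graph with parts and labels -/
structure Sys (Λ : Type) where
  /-- vertices -/
  V : Type
  /-- finitely many -/
  fin : Finite V
  /-- the part of a vertex -/
  part : V → ℕ
  /-- the triples with a given label -/
  T : Λ → V → V → V → Prop

variable {Λ : Type}

/-- Triples have increasing parts and only one label, and the labels of the faces of a tetrahedron
satisfy `E4`. -/
structure Valid (E4 : Λ → Λ → Λ → Λ → Prop) (S : Sys Λ) : Prop where
  trans : ∀ l u v w, S.T l u v w → S.part u < S.part v ∧ S.part v < S.part w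
  uniq : ∀ l m u v w, S.T l u v w → S.T m u v w → l = m
  good : ∀ l1 l2 l3 l4 u v w z, S.T l4 u v w → S.T l3 u v z → S.T l2 u w z → S.T l1 v w z →
    E4 l1 l2 l3 l4

section

variable (S : Sys Λ) (a b c : ℕ) (l : Λ)

/-- the triples with label `l` over the parts `a, b, c` -/
def Edge : Type :=
  {t : S.V × S.V × S.V // (S.part t.1 = a ∧ S.part t.2.1 = b ∧ S.part t.2.2 = c) ∧
    S.T l t.1 t.2.1 t.2.2}

instance : Finite (Edge S a b c l) := by
  have := S.fin
  unfold Edge
  infer_instance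

/-- new vertices: functions for the three parts, copies of the other vertices -/
abbrev NewV (ι : Type) : Type := (Fin 3 × (ι → S.V)) ⊕ (Line (Edge S a b c l) ι × S.V)

variable {S a b c l} {ι : Type}

/-- the copy of the system along a line -/
noncomputable def emb (L : Line (Edge S a b c l) ι) (z : S.V) : NewV S a b c l ι :=
  if S.part z = a then Sum.inl (0, fun i => (L.idxFun i).elim z fun t => t.1.1)
  else if S.part z = b then Sum.inl (1, fun i => (L.idxFun i).elim z fun t => t.1.2.1)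
  else if S.part z = c then Sum.inl (2, fun i => (L.idxFun i).elim z fun t => t.1.2.2)
  else Sum.inr (L, z)

/-- the parts of the new vertices -/
def newPart : NewV S a b c l ι → ℕ
  | Sum.inl (s, _) => if s = 0 then a else if s = 1 then b else c
  | Sum.inr (_, z) => S.part z

lemma newPart_emb (L : Line (Edge S a b c l) ι) (z : S.V) : newPart (emb L z) = S.part z := by
  unfold emb
  split_ifs with h1 h2 h3
  · simp [newPart, h1]
  · simp [newPart, h2]
  · simp [newPart, h3]
  · rfl

lemma emb_a {L : Line (Edge S a b c l) ι} {z : S.V} (h : S.part z = a) :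
    emb L z = Sum.inl (0, fun i => (L.idxFun i).elim z fun t => t.1.1) := by
  unfold emb
  rw [if_pos h]

lemma emb_b (hab : a < b) {L : Line (Edge S a b c l) ι} {z : S.V} (h : S.part z = b) :
    emb L z = Sum.inl (1, fun i => (L.idxFun i).elim z fun t => t.1.2.1) := by
  unfold emb
  rw [if_neg (by omega), if_pos h]

lemma emb_c (hab : a < b) (hbc : b < c) {L : Line (Edge S a b c l) ι} {z : S.V}
    (h : S.part z = c) :
    emb L z = Sum.inl (2, fun i => (L.idxFun i).elim z fun t => t.1.2.2) := by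
  unfold emb
  rw [if_neg (by omega), if_neg (by omega), if_pos h]

lemma emb_o {L : Line (Edge S a b c l) ι} {z : S.V} (h1 : S.part z ≠ a) (h2 : S.part z ≠ b)
    (h3 : S.part z ≠ c) : emb L z = Sum.inr (L, z) := by
  unfold emb
  rw [if_neg h1, if_neg h2, if_neg h3]

lemma emb_inj (hab : a < b) (hbc : b < c) {L : Line (Edge S a b c l) ι} {u v : S.V}
    (h : emb L u = emb L v) : u = v := by
  have hp : S.part u = S.part v := by rw [← newPart_emb L u, h, newPart_emb]
  obtain ⟨i, hi⟩ := L.proper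
  by_cases h1 : S.part u = a
  · rw [emb_a h1, emb_a (hp ▸ h1)] at h
    simp only [Sum.inl.injEq, Prod.mk.injEq, true_and] at h
    have := congrFun h i
    simpa [hi] using this
  by_cases h2 : S.part u = b
  · rw [emb_b hab h2, emb_b hab (hp ▸ h2)] at h
    simp only [Sum.inl.injEq, Prod.mk.injEq, true_and] at h
    have := congrFun h i
    simpa [hi] using this
  by_cases h3 : S.part u = c
  · rw [emb_c hab hbc h3, emb_c hab hbc (hp ▸ h3)] at h
    simp only [Sum.inl.injEq, Prod.mk.injEq, true_and] at h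
    have := congrFun h i
    simpa [hi] using this
  · rw [emb_o h1 h2 h3, emb_o (hp ▸ h1) (hp ▸ h2) (hp ▸ h3)] at h
    simp only [Sum.inr.injEq, Prod.mk.injEq, true_and] at h
    exact h

/-- a vertex outside the three parts determines the line -/
lemma emb_out {L L' : Line (Edge S a b c l) ι} {u u' : S.V} (h : emb L u = emb L' u')
    (h1 : S.part u ≠ a) (h2 : S.part u ≠ b) (h3 : S.part u ≠ c) : L = L' ∧ u = u' := by
  have hp : S.part u = S.part u' := by rw [← newPart_emb L u, h, newPart_emb]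
  rw [emb_o h1 h2 h3, emb_o (hp ▸ h1) (hp ▸ h2) (hp ▸ h3)] at h
  simp only [Sum.inr.injEq, Prod.mk.injEq] at h
  exact h

variable {E4 : Λ → Λ → Λ → Λ → Prop}

/-- a triple of one copy whose vertices are in another copy is a triple of that copy -/
lemma transfer (hS : Valid E4 S) (hab : a < b) (hbc : b < c) {L L' : Line (Edge S a b c l) ι}
    {m : Λ} {u v w u' v' w' : S.V} (hu : emb L u = emb L' u') (hv : emb L v = emb L' v')
    (hw : emb L w = emb L' w') (hT : S.T m u' v' w') : S.T m u v w := by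
  have pu : S.part u = S.part u' := by rw [← newPart_emb L u, hu, newPart_emb]
  have pv : S.part v = S.part v' := by rw [← newPart_emb L v, hv, newPart_emb]
  have pw : S.part w = S.part w' := by rw [← newPart_emb L w, hw, newPart_emb]
  obtain ⟨t1, t2⟩ := hS.trans _ _ _ _ hT
  by_cases hin : (S.part u = a ∨ S.part u = b ∨ S.part u = c) ∧
      (S.part v = a ∨ S.part v = b ∨ S.part v = c) ∧ (S.part w = a ∨ S.part w = b ∨ S.part w = c)
  · have qu : S.part u = a := by omega
    have qv : S.part v = b := by omega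
    have qw : S.part w = c := by omega
    rw [emb_a qu, emb_a (pu ▸ qu)] at hu
    rw [emb_b hab qv, emb_b hab (pv ▸ qv)] at hv
    rw [emb_c hab hbc qw, emb_c hab hbc (pw ▸ qw)] at hw
    simp only [Sum.inl.injEq, Prod.mk.injEq, true_and] at hu hv hw
    obtain ⟨i, hi⟩ := L.proper
    obtain ⟨j, hj⟩ := L'.proper
    have hui := congrFun hu i
    have hvi := congrFun hv i
    have hwi := congrFun hw i
    have huj := congrFun hu j
    have hvj := congrFun hv j
    have hwj := congrFun hw j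
    simp only [hi, Option.elim_none] at hui hvi hwi
    simp only [hj, Option.elim_none] at huj hvj hwj
    rcases hi' : L'.idxFun i with _ | t
    · simp only [hi', Option.elim_none] at hui hvi hwi
      rw [hui, hvi, hwi]; exact hT
    · simp only [hi', Option.elim_some] at hui hvi hwi
      rcases hj' : L.idxFun j with _ | t'
      · simp only [hj', Option.elim_none] at huj hvj hwj
        rw [huj, hvj, hwj]; exact hT
      · simp only [hj', Option.elim_some] at huj hvj hwj
        have e1 : S.T l u' v' w' := by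
          rw [← huj, ← hvj, ← hwj]; exact t'.2.2
        have e2 : m = l := hS.uniq _ _ _ _ _ hT e1
        rw [e2, hui, hvi, hwi]
        exact t.2.2
  · have hL : L = L' := by
      by_contra hne
      apply hin
      refine ⟨?_, ?_, ?_⟩
      · by_contra h0
        push Not at h0
        exact hne (emb_out hu h0.1 h0.2.1 h0.2.2).1
      · by_contra h0
        push Not at h0
        exact hne (emb_out hv h0.1 h0.2.1 h0.2.2).1
      · by_contra h0
        push Not at h0
        exact hne (emb_out hw h0.1 h0.2.1 h0.2.2).1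
    subst hL
    rw [emb_inj hab hbc hu, emb_inj hab hbc hv, emb_inj hab hbc hw]
    exact hT

variable (S a b c l) in
/-- the amalgam of the copies along all lines -/
noncomputable def amalgam (ι : Type) [Finite ι] : Sys Λ where
  V := NewV S a b c l ι
  fin := by
    have := S.fin
    have : Finite (Line (Edge S a b c l) ι) :=
      Finite.of_injective (fun L => L.idxFun) (fun L L' h => by
        cases L; cases L'; simpa using h)
    infer_instance
  part := newPart
  T := fun m x y z => ∃ (L : Line (Edge S a b c l) ι) (u v w : S.V), S.T m u v w ∧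
    x = emb L u ∧ y = emb L v ∧ z = emb L w

lemma valid_amalgam (hS : Valid E4 S) (hab : a < b) (hbc : b < c) (ι : Type) [Finite ι] :
    Valid E4 (amalgam S a b c l ι) where
  trans := by
    rintro m _ _ _ ⟨L, u, v, w, hT, rfl, rfl, rfl⟩
    change newPart _ < newPart _ ∧ newPart _ < newPart _
    rw [newPart_emb, newPart_emb, newPart_emb]
    exact hS.trans _ _ _ _ hT
  uniq := by
    rintro m m' _ _ _ ⟨L, u, v, w, hT, rfl, rfl, rfl⟩ ⟨L', u', v', w', hT', hu, hv, hw⟩
    exact hS.uniq _ _ _ _ _ hT (transfer hS hab hbc hu hv hw hT')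
  good := by
    rintro m1 m2 m3 m4 x y z s ⟨L4, u4, v4, w4, h4, x4, y4, z4⟩ ⟨L3, u3, v3, w3, h3, x3, y3, s3⟩
      ⟨L2, u2, v2, w2, h2, x2, z2, s2⟩ ⟨L1, u1, v1, w1, h1, y1, z1, s1⟩
    have key : ∃ (L : Line (Edge S a b c l) ι) (u v w t : S.V), x = emb L u ∧ y = emb L v ∧
        z = emb L w ∧ s = emb L t := by
      obtain ⟨p1, p2⟩ := hS.trans _ _ _ _ h4
      obtain ⟨p3, p4⟩ := hS.trans _ _ _ _ h2
      have q1 : S.part w4 = S.part v2 := by
        rw [← newPart_emb L4 w4, ← z4, z2, newPart_emb]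
      by_cases hu : S.part u4 ≠ a ∧ S.part u4 ≠ b ∧ S.part u4 ≠ c
      · have hL : L4 = L3 := (emb_out (x4.symm.trans x3) hu.1 hu.2.1 hu.2.2).1
        exact ⟨L4, u4, v4, w4, w3, x4, y4, z4, hL ▸ s3⟩
      by_cases hv : S.part v4 ≠ a ∧ S.part v4 ≠ b ∧ S.part v4 ≠ c
      · have hL : L4 = L3 := (emb_out (y4.symm.trans y3) hv.1 hv.2.1 hv.2.2).1
        exact ⟨L4, u4, v4, w4, w3, x4, y4, z4, hL ▸ s3⟩
      by_cases hw : S.part w4 ≠ a ∧ S.part w4 ≠ b ∧ S.part w4 ≠ c
      · have hL : L4 = L2 := (emb_out (z4.symm.trans z2) hw.1 hw.2.1 hw.2.2).1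
        exact ⟨L4, u4, v4, w4, w2, x4, y4, z4, hL ▸ s2⟩
      · have hs : S.part w2 ≠ a ∧ S.part w2 ≠ b ∧ S.part w2 ≠ c := by omega
        have hL : L2 = L3 := (emb_out (s2.symm.trans s3) hs.1 hs.2.1 hs.2.2).1
        exact ⟨L2, u2, v3, v2, w2, x2, hL ▸ y3, z2, s2⟩
    obtain ⟨L, u, v, w, t, hx, hy, hz, hs⟩ := key
    refine hS.good m1 m2 m3 m4 u v w t ?_ ?_ ?_ ?_
    · exact transfer hS hab hbc (hx.symm.trans x4) (hy.symm.trans y4) (hz.symm.trans z4) h4
    · exact transfer hS hab hbc (hx.symm.trans x3) (hy.symm.trans y3) (hs.symm.trans s3) h3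
    · exact transfer hS hab hbc (hx.symm.trans x2) (hz.symm.trans z2) (hs.symm.trans s2) h2
    · exact transfer hS hab hbc (hy.symm.trans y1) (hz.symm.trans z1) (hs.symm.trans s1) h1

end

/-- a map which preserves parts and labelled triples -/
def IsHom {Λ : Type} (S S' : Sys Λ) (φ : S.V → S'.V) : Prop :=
  (∀ v, S'.part (φ v) = S.part v) ∧ ∀ m u v w, S.T m u v w → S'.T m (φ u) (φ v) (φ w)

lemma IsHom.comp {Λ : Type} {S S' S'' : Sys Λ} {φ : S.V → S'.V} {ψ : S'.V → S''.V}
    (hψ : IsHom S' S'' ψ) (hφ : IsHom S S' φ) : IsHom S S'' (ψ ∘ φ) :=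
  ⟨fun v => (hψ.1 _).trans (hφ.1 v), fun m u v w h => hψ.2 _ _ _ _ (hφ.2 _ _ _ _ h)⟩

/-- **One step**: the triples with label `l` over the parts `a, b, c` get one colour. -/
theorem step {E4 : Λ → Λ → Λ → Λ → Prop} {S : Sys Λ} (hS : Valid E4 S) {a b c : ℕ}
    (hab : a < b) (hbc : b < c) (l : Λ) (κ : Type) [Finite κ] [Nonempty κ] :
    ∃ S' : Sys Λ, Valid E4 S' ∧ ∀ χ : S'.V → S'.V → S'.V → κ, ∃ φ : S.V → S'.V, IsHom S S' φ ∧
      ∃ k : κ, ∀ u v w, S.part u = a → S.part v = b → S.part w = c → S.T l u v w →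
        χ (φ u) (φ v) (φ w) = k := by
  by_cases hne : IsEmpty (Edge S a b c l)
  · refine ⟨S, hS, fun χ => ⟨id, ⟨fun _ => rfl, fun _ _ _ _ h => h⟩, Classical.arbitrary κ,
      fun u v w h1 h2 h3 h4 => ?_⟩⟩
    exact (hne.false ⟨(u, v, w), ⟨h1, h2, h3⟩, h4⟩).elim
  rw [not_isEmpty_iff] at hne
  obtain ⟨ι, hι, hHJ⟩ := Line.exists_mono_in_high_dimension (Edge S a b c l) κ
  refine ⟨amalgam S a b c l ι, valid_amalgam hS hab hbc ι, fun χ => ?_⟩
  obtain ⟨L, k, hk⟩ := hHJ fun t => χ (Sum.inl (0, fun i => (t i).1.1))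
    (Sum.inl (1, fun i => (t i).1.2.1)) (Sum.inl (2, fun i => (t i).1.2.2))
  refine ⟨emb L, ⟨fun v => newPart_emb L v, fun m u v w h => ⟨L, u, v, w, h, rfl, rfl, rfl⟩⟩, k,
    fun u v w h1 h2 h3 h4 => ?_⟩
  have := hk ⟨(u, v, w), ⟨h1, h2, h3⟩, h4⟩
  have f1 : (fun i => (L.idxFun i).elim u fun t => t.1.1) =
      fun i => (L ⟨(u, v, w), ⟨h1, h2, h3⟩, h4⟩ i).1.1 := by
    funext i
    rcases h : L.idxFun i with _ | t <;> simp [Line.coe_apply, h]
  have f2 : (fun i => (L.idxFun i).elim v fun t => t.1.2.1) =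
      fun i => (L ⟨(u, v, w), ⟨h1, h2, h3⟩, h4⟩ i).1.2.1 := by
    funext i
    rcases h : L.idxFun i with _ | t <;> simp [Line.coe_apply, h]
  have f3 : (fun i => (L.idxFun i).elim w fun t => t.1.2.2) =
      fun i => (L ⟨(u, v, w), ⟨h1, h2, h3⟩, h4⟩ i).1.2.2 := by
    funext i
    rcases h : L.idxFun i with _ | t <;> simp [Line.coe_apply, h]
  rw [emb_a h1, emb_b hab h2, emb_c hab hbc h3, f1, f2, f3]
  exact this

/-- **All steps**: for a finite list of tasks. -/
theorem steps {E4 : Λ → Λ → Λ → Λ → Prop} (κ : Type) [Finite κ] [Nonempty κ]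
    (tasks : List ((ℕ × ℕ × ℕ) × Λ)) :
    ∀ {S : Sys Λ}, Valid E4 S → (∀ t ∈ tasks, t.1.1 < t.1.2.1 ∧ t.1.2.1 < t.1.2.2) →
    ∃ S' : Sys Λ, Valid E4 S' ∧ ∀ χ : S'.V → S'.V → S'.V → κ, ∃ φ : S.V → S'.V, IsHom S S' φ ∧
      ∀ t ∈ tasks, ∃ k : κ, ∀ u v w, S.part u = t.1.1 → S.part v = t.1.2.1 →
        S.part w = t.1.2.2 → S.T t.2 u v w → χ (φ u) (φ v) (φ w) = k := by
  induction tasks with
  | nil =>
    intro S hS _
    exact ⟨S, hS, fun χ => ⟨id, ⟨fun _ => rfl, fun _ _ _ _ h => h⟩, fun t ht => by simp at ht⟩⟩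
  | cons t tasks ih =>
    intro S hS ht
    obtain ⟨S1, hS1, h1⟩ := step hS (ht t (by simp)).1 (ht t (by simp)).2 t.2 κ
    obtain ⟨S2, hS2, h2⟩ := ih hS1 (fun t' ht' => ht t' (by simp [ht']))
    refine ⟨S2, hS2, fun χ => ?_⟩
    obtain ⟨ψ, hψ, hψ2⟩ := h2 χ
    obtain ⟨φ, hφ, k, hk⟩ := h1 fun u v w => χ (ψ u) (ψ v) (ψ w)
    refine ⟨ψ ∘ φ, hψ.comp hφ, fun t' ht' => ?_⟩
    rcases List.mem_cons.1 ht' with rfl | ht'
    · exact ⟨k, hk⟩
    · obtain ⟨k', hk'⟩ := hψ2 t' ht'
      refine ⟨k', fun u v w e1 e2 e3 e4 => hk' _ _ _ ?_ ?_ ?_ (hφ.2 _ _ _ _ e4)⟩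
      · rw [hφ.1, e1]
      · rw [hφ.1, e2]
      · rw [hφ.1, e3]

end Pool.Agent.MP_33952e_nt.P
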